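import Mathlib

/-! Definitions used in the statement: the flat two-torus, the heat flow, pulsed diffusion and
exponential mixing. -/

set_option autoImplicit false

open MeasureTheory UnitAddTorus
open scoped ContDiff ComplexConjugate

namespace Pool.Agent.Lib.MP_459901_an

/-- The circle `ℝ/ℤ` carries its normalised Haar (= Lebesgue) measure. -/
@[reducible] noncomputable def msCircle : MeasureSpace UnitAddCircle := ⟨AddCircle.haarAddCircle⟩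

attribute [local instance] msCircle

/-- The flat torus `ℝ²/ℤ²`. -/
abbrev T2 : Type := UnitAddTorus (Fin 2)

/-- Lebesgue (= normalised Haar = Riemannian volume) measure on the flat torus. -/
noncomputable abbrev vol : Measure T2 := volume

/-- The projection `ℝ² → ℝ²/ℤ²`. -/
def proj (x : Fin 2 → ℝ) : T2 := fun i => (x i : UnitAddCircle)

/-- `φ` is a `C^∞` diffeomorphism of the torus: it is bijective and lifts to a `C^∞` diffeomorphism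
`Φ` of `ℝ²` (with inverse `Ψ`). -/
def IsSmoothDiffeo (φ : T2 → T2) : Prop :=
  Function.Bijective φ ∧ ∃ Φ Ψ : (Fin 2 → ℝ) → (Fin 2 → ℝ), ContDiff ℝ ∞ Φ ∧ ContDiff ℝ ∞ Ψ ∧
    (∀ x, Ψ (Φ x) = x) ∧ (∀ x, Φ (Ψ x) = x) ∧ ∀ x, φ (proj x) = proj (Φ x)

/-- The eigenvalue `4π²|k|²` of `-Δ` on the character `exp (2π i k·x)`. -/
noncomputable def lam (k : Fin 2 → ℤ) : ℝ := 4 * Real.pi ^ 2 * ((k 0 : ℝ) ^ 2 + (k 1 : ℝ) ^ 2)

/-- The `L²` norm. -/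
noncomputable def l2norm (f : T2 → ℂ) : ℝ := √(∫ x, ‖f x‖ ^ 2 ∂vol)

/-- The heat semigroup `e^{νΔ}`, `ν > 0`: the Fourier coefficients `f̂(k)` of `f` are multiplied by
`exp (-ν 4π²|k|²)`. -/
noncomputable def heatFlow (ν : ℝ) (f : T2 → ℂ) (x : T2) : ℂ :=
  ∑' k : Fin 2 → ℤ, (Real.exp (-(ν * lam k)) : ℂ) * mFourierCoeff f k * mFourier k x

/-- `f ∈ L²` is mean-zero and belongs to the homogeneous Sobolev space `Ḣ^s`. -/
def HsMem (s : ℝ) (f : T2 → ℂ) : Prop :=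
  MemLp f 2 vol ∧ mFourierCoeff f 0 = 0 ∧ Summable fun k => lam k ^ s * ‖mFourierCoeff f k‖ ^ 2

/-- The norm `‖(-Δ)^{s/2} f‖` of `Ḣ^s`. -/
noncomputable def hsNorm (s : ℝ) (f : T2 → ℂ) : ℝ :=
  √(∑' k, lam k ^ s * ‖mFourierCoeff f k‖ ^ 2)

/-- Exponential mixing: `|⟨f ∘ φⁿ, g⟩| ≤ c₁ e^{-c₂ n} ‖f‖_α ‖g‖_β` for some `α, β, c₁, c₂ > 0` and
all `n`, all `f ∈ Ḣ^α` and all `g ∈ Ḣ^β`. -/
def ExponentiallyMixing (φ : T2 → T2) : Prop :=
  ∃ α > (0:ℝ), ∃ β > (0:ℝ), ∃ c₁ > (0:ℝ), ∃ c₂ > (0:ℝ), ∀ (n : ℕ) (f g : T2 → ℂ),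
    HsMem α f → HsMem β g →
      ‖∫ x, f (φ^[n] x) * conj (g x) ∂vol‖ ≤ c₁ * Real.exp (-(c₂ * n)) * hsNorm α f * hsNorm β g

/-- One step `θ ↦ e^{νΔ}(θ ∘ φ)` of the pulsed diffusion. -/
noncomputable def pulseStep (φ : T2 → T2) (ν : ℝ) (θ : T2 → ℂ) : T2 → ℂ := heatFlow ν (θ ∘ φ)

/-- The initial datum `θ₀(x,y) = 2 cos (2π y)` (`fourier 1 y` is `exp (2π i y)`). -/
noncomputable def datum (p : T2) : ℂ := ((2 * (fourier 1 (p 1) : ℂ).re : ℝ) : ℂ)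

end Pool.Agent.Lib.MP_459901_an
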