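import Mathlib
import Pool.Agent.Lib.MP_459901_an.Torus

/-! `L²`-level versions of the definitions, used in the proofs. -/

set_option autoImplicit false

open MeasureTheory UnitAddTorus
open scoped ContDiff

namespace Pool.Agent.Lib.MP_459901_an

attribute [local instance] msCircle

/-- The complex Hilbert space `L²(T²)`. -/
abbrev L2 : Type := Lp ℂ 2 vol

/-- The heat semigroup `e^{νΔ}` on `L²(T²)`, as a Fourier multiplier. -/
noncomputable def heat (ν : ℝ) (f : L2) : L2 :=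
  ∑' k : Fin 2 → ℤ, ((Real.exp (-(ν * lam k)) : ℂ) * mFourierCoeff f k) • mFourierLp 2 k

/-- `f` is mean-zero and belongs to the homogeneous Sobolev space `Ḣ^s`. -/
def MemHdot (s : ℝ) (f : L2) : Prop :=
  mFourierCoeff f 0 = 0 ∧ Summable fun k => lam k ^ s * ‖mFourierCoeff f k‖ ^ 2

/-- The norm `‖(-Δ)^{s/2} f‖` of `Ḣ^s`. -/
noncomputable def hnorm (s : ℝ) (f : L2) : ℝ :=
  √(∑' k, lam k ^ s * ‖mFourierCoeff f k‖ ^ 2)

/-- The Koopman operator `f ↦ f ∘ φ` on `L²(T²)`. -/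
noncomputable def koopman (φ : T2 → T2) (hφ : MeasurePreserving φ vol vol) (f : L2) : L2 :=
  Lp.compMeasurePreserving φ hφ f

/-- Exponential mixing: `|⟨f ∘ φⁿ, g⟩| ≤ c₁ e^{-c₂ n} ‖f‖_α ‖g‖_β` for some `α, β, c₁, c₂ > 0` and
all `f ∈ Ḣ^α`, `g ∈ Ḣ^β`. -/
def ExpMixing (φ : T2 → T2) (hφ : MeasurePreserving φ vol vol) : Prop :=
  ∃ α > (0:ℝ), ∃ β > (0:ℝ), ∃ c₁ > (0:ℝ), ∃ c₂ > (0:ℝ), ∀ (n : ℕ) (f g : L2),
    MemHdot α f → MemHdot β g →
      ‖inner ℂ (koopman φ^[n] (hφ.iterate n) f) g‖ ≤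
        c₁ * Real.exp (-(c₂ * n)) * hnorm α f * hnorm β g

end Pool.Agent.Lib.MP_459901_an
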