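import Mathlib
import Pool.Agent.Lib.MP_459901_an.Defs

/-! The analytic family of contractions `E_q = Σ_{k≠0} q^{|k|²-1} e_k ⊗ e_k`. -/

set_option autoImplicit false

open MeasureTheory UnitAddTorus Metric
open scoped ContDiff

namespace Pool.Agent.Lib.MP_459901_an

attribute [local instance] msCircle

/-- `|k|²` as a natural number -/
def nsq (k : Fin 2 → ℤ) : ℕ := (k 0).natAbs ^ 2 + (k 1).natAbs ^ 2

lemma lam_eq (k : Fin 2 → ℤ) : lam k = 4 * Real.pi ^ 2 * nsq k := by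
  unfold lam nsq
  push_cast
  simp [sq_abs]

lemma nsq_pos {k : Fin 2 → ℤ} (hk : k ≠ 0) : 0 < nsq k := by
  by_contra h
  push Not at h
  have h1 : nsq k = 0 := by omega
  unfold nsq at h1
  have h2 : (k 0).natAbs ^ 2 = 0 := by omega
  have h3 : (k 1).natAbs ^ 2 = 0 := by omega
  apply hk
  funext i
  fin_cases i
  · simpa using h2
  · simpa using h3

/-- the multiplier -/
noncomputable def coef (q : ℂ) (k : Fin 2 → ℤ) : ℂ := if k = 0 then 0 else q ^ (nsq k - 1)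

/-- the basis vectors -/
noncomputable abbrev e (k : Fin 2 → ℤ) : L2 := mFourierLp 2 k

lemma inner_e (k : Fin 2 → ℤ) (f : L2) : inner ℂ (e k) f = mFourierCoeff f k := by
  rw [← mFourierBasis_repr, HilbertBasis.repr_apply_apply, coe_mFourierBasis]

lemma inner_e_e (k l : Fin 2 → ℤ) : inner ℂ (e k) (e l) = if k = l then (1:ℂ) else 0 :=
  orthonormal_iff_ite.mp orthonormal_mFourier k l

lemma norm_e (k : Fin 2 → ℤ) : ‖e k‖ = 1 := orthonormal_mFourier.1 k

/-- rank one projection -/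
noncomputable def Pk (k : Fin 2 → ℤ) : L2 →L[ℂ] L2 := (innerSL ℂ (e k)).smulRight (e k)

lemma Pk_apply (k : Fin 2 → ℤ) (f : L2) : Pk k f = (inner ℂ (e k) f : ℂ) • e k := by
  simp [Pk]

lemma norm_Pk_le (k : Fin 2 → ℤ) : ‖Pk k‖ ≤ 1 := by
  apply ContinuousLinearMap.opNorm_le_bound _ zero_le_one
  intro f
  rw [Pk_apply, norm_smul, norm_e, mul_one, one_mul]
  have := norm_inner_le_norm (𝕜 := ℂ) (e k) f
  rwa [norm_e, one_mul] at this

lemma summable_int_pow {r : ℝ} (h0 : 0 ≤ r) (h1 : r < 1) : Summable fun n : ℤ => r ^ n.natAbs := by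
  apply Summable.of_nat_of_neg
  · simpa using summable_geometric_of_lt_one h0 h1
  · simpa using summable_geometric_of_lt_one h0 h1

lemma summable_pow {r : ℝ} (h0 : 0 < r) (h1 : r < 1) :
    Summable fun k : Fin 2 → ℤ => r ^ (nsq k - 1) := by
  have hs := summable_int_pow h0.le h1
  have h2 : Summable fun p : ℤ × ℤ => r ^ p.1.natAbs * r ^ p.2.natAbs :=
    hs.mul_of_nonneg hs (fun _ => by positivity) (fun _ => by positivity)
  have h3 : Summable fun k : Fin 2 → ℤ => r ^ (k 0).natAbs * r ^ (k 1).natAbs := by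
    have := ((finTwoArrowEquiv ℤ).summable_iff (f := fun p : ℤ × ℤ => r ^ p.1.natAbs * r ^ p.2.natAbs)).mpr h2
    exact this
  refine Summable.of_nonneg_of_le (fun _ => by positivity) ?_ (h3.mul_left r⁻¹)
  intro k
  rw [← pow_add]
  have h4 : r ^ (nsq k - 1) = r⁻¹ * r ^ (nsq k - 1 + 1) := by
    rw [pow_succ]
    field_simp
  rw [h4]
  apply mul_le_mul_of_nonneg_left _ (by positivity)
  apply pow_le_pow_of_le_one h0.le h1.le
  have h5 : (k 0).natAbs + (k 1).natAbs ≤ nsq k := by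
    unfold nsq
    nlinarith [Nat.le_self_pow (two_ne_zero) (k 0).natAbs, Nat.le_self_pow (two_ne_zero) (k 1).natAbs]
  omega

lemma norm_coef_le {q : ℂ} {r : ℝ} (hq : ‖q‖ ≤ r) (h0 : 0 < r) (k : Fin 2 → ℤ) :
    ‖coef q k‖ ≤ r ^ (nsq k - 1) := by
  unfold coef
  split_ifs
  · simp; positivity
  · rw [norm_pow]; gcongr

lemma norm_term_le {q : ℂ} {r : ℝ} (hq : ‖q‖ ≤ r) (h0 : 0 < r) (k : Fin 2 → ℤ) :
    ‖coef q k • Pk k‖ ≤ r ^ (nsq k - 1) := by
  rw [norm_smul]
  calc ‖coef q k‖ * ‖Pk k‖ ≤ r ^ (nsq k - 1) * 1 := by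
        gcongr
        · exact norm_coef_le hq h0 k
        · exact norm_Pk_le k
    _ = _ := mul_one _

/-- the analytic family -/
noncomputable def Eop (q : ℂ) : L2 →L[ℂ] L2 := ∑' k : Fin 2 → ℤ, coef q k • Pk k

lemma exists_r {q : ℂ} (hq : ‖q‖ < 1) : ∃ r : ℝ, 0 < r ∧ r < 1 ∧ ‖q‖ < r := by
  obtain ⟨r, h1, h2⟩ := exists_between hq
  exact ⟨r, (norm_nonneg q).trans_lt h1, h2, h1⟩

lemma summable_Eop {q : ℂ} (hq : ‖q‖ < 1) : Summable fun k : Fin 2 → ℤ => coef q k • Pk k := by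
  obtain ⟨r, h0, h1, h2⟩ := exists_r hq
  exact Summable.of_norm_bounded (summable_pow h0 h1) (fun k => norm_term_le h2.le h0 k)

lemma Eop_diff : DifferentiableOn ℂ Eop (ball 0 1) := by
  intro q hq
  have hq' : ‖q‖ < 1 := by simpa using hq
  obtain ⟨r, h0, h1, h2⟩ := exists_r hq'
  have h3 : DifferentiableOn ℂ Eop (ball 0 r) := by
    unfold Eop
    apply Complex.differentiableOn_tsum_of_summable_norm (summable_pow h0 h1)
    · intro k
      unfold coef
      split_ifs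
      · simp only [zero_smul]; exact differentiableOn_const _
      · exact ((differentiable_id.pow _).smul_const _).differentiableOn
    · exact isOpen_ball
    · intro k w hw
      exact norm_term_le (by simpa using (mem_ball_zero_iff.mp hw).le) h0 k
  have h4 : q ∈ ball (0:ℂ) r := by simpa using h2
  exact (h3.differentiableAt (isOpen_ball.mem_nhds h4)).differentiableWithinAt

lemma hasSum_apply {H : Type*} [NormedAddCommGroup H] [NormedSpace ℂ H] {ι : Type*}
    {F : ι → H →L[ℂ] H} {A : H →L[ℂ] H} (h : HasSum F A) (f : H) :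
    HasSum (fun k => F k f) (A f) :=
  (ContinuousLinearMap.apply ℂ H f).hasSum h

lemma hasSum_inner_right {H : Type*} [NormedAddCommGroup H] [InnerProductSpace ℂ H] {ι : Type*}
    {F : ι → H} {A : H} (h : HasSum F A) (f : H) :
    HasSum (fun k => (inner ℂ f (F k) : ℂ)) (inner ℂ f A) :=
  (innerSL ℂ f).hasSum h

lemma inner_Eop {q : ℂ} (hq : ‖q‖ < 1) (l : Fin 2 → ℤ) (f : L2) :
    inner ℂ (e l) (Eop q f) = coef q l * inner ℂ (e l) f := by
  have h1 := hasSum_apply (summable_Eop hq).hasSum f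
  have h2 := hasSum_inner_right h1 (e l)
  have h3 : HasSum (fun k => inner ℂ (e l) ((coef q k • Pk k) f)) (coef q l * inner ℂ (e l) f) := by
    have h4 : ∀ k, k ≠ l → (inner ℂ (e l) ((coef q k • Pk k) f) : ℂ) = 0 := by
      intro k hk
      rw [ContinuousLinearMap.smul_apply, Pk_apply, inner_smul_right, inner_smul_right, inner_e_e,
        if_neg (Ne.symm hk)]
      simp
    have h5 := hasSum_single l h4
    rw [ContinuousLinearMap.smul_apply, Pk_apply, inner_smul_right, inner_smul_right, inner_e_e,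
      if_pos rfl, mul_one] at h5
    exact h5
  exact h2.unique h3

lemma norm_coef_le_one {q : ℂ} (hq : ‖q‖ < 1) (k : Fin 2 → ℤ) : ‖coef q k‖ ≤ 1 := by
  unfold coef
  split_ifs
  · simp
  · rw [norm_pow]; exact pow_le_one₀ (norm_nonneg _) hq.le

lemma parseval (f : L2) : HasSum (fun k => ‖(inner ℂ (e k) f : ℂ)‖ ^ 2) (‖f‖ ^ 2) := by
  have h1 := hasSum_sq_mFourierCoeff f
  have h2 : ∫ t, ‖f t‖ ^ 2 = ‖f‖ ^ 2 := by
    rw [← inner_self_eq_norm_sq (𝕜 := ℂ), L2.inner_def]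
    rw [← integral_re (L2.integrable_inner f f)]
    congr 1
    ext t
    rw [inner_self_eq_norm_sq]
  rw [h2] at h1
  simpa only [inner_e] using h1

lemma norm_Eop_le {q : ℂ} (hq : ‖q‖ < 1) (f : L2) : ‖Eop q f‖ ≤ ‖f‖ := by
  have h1 := parseval (Eop q f)
  have h2 := parseval f
  have h3 : ‖Eop q f‖ ^ 2 ≤ ‖f‖ ^ 2 := by
    apply hasSum_le _ h1 h2
    intro k
    rw [inner_Eop hq, norm_mul, mul_pow]
    have := norm_coef_le_one hq k
    calc ‖coef q k‖ ^ 2 * ‖(inner ℂ (e k) f : ℂ)‖ ^ 2 ≤ 1 ^ 2 * ‖(inner ℂ (e k) f : ℂ)‖ ^ 2 := by gcongr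
      _ = _ := by ring
  exact (pow_le_pow_iff_left₀ (norm_nonneg _) (norm_nonneg _) two_ne_zero).mp h3

lemma ext_coeff {f g : L2} (h : ∀ k, (inner ℂ (e k) f : ℂ) = inner ℂ (e k) g) : f = g := by
  have h1 := hasSum_mFourier_series_L2 f
  have h2 := hasSum_mFourier_series_L2 g
  simp only [← inner_e] at h1 h2
  simp only [h] at h1
  exact h1.unique h2

lemma heat_eq {ν : ℝ} (hν : 0 < ν) {f : L2} (hf : (inner ℂ (e 0) f : ℂ) = 0) :
    heat ν f = (Real.exp (-(4 * Real.pi ^ 2 * ν)) : ℂ) • Eop (Real.exp (-(4 * Real.pi ^ 2 * ν)) : ℂ) f := by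
  set q : ℂ := (Real.exp (-(4 * Real.pi ^ 2 * ν)) : ℂ) with hq
  have hq1 : ‖q‖ < 1 := by
    rw [hq, Complex.norm_real, Real.norm_eq_abs, abs_of_pos (Real.exp_pos _)]
    rw [Real.exp_lt_one_iff]
    have := Real.pi_pos
    have : 0 < 4 * Real.pi ^ 2 * ν := by positivity
    linarith
  have h1 := hasSum_mFourier_series_L2 (q • Eop q f)
  rw [← h1.tsum_eq]
  unfold heat
  congr 1
  funext k
  rw [← inner_e, ← inner_e, inner_smul_right, inner_Eop hq1]
  by_cases hk : k = 0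
  · subst hk
    rw [hf]
    simp
  · congr 1
    rw [← mul_assoc]
    congr 1
    unfold coef
    rw [if_neg hk, ← pow_succ']
    have h2 := nsq_pos hk
    rw [Nat.sub_add_cancel h2, hq, lam_eq, ← Complex.ofReal_pow, ← Real.exp_nat_mul]
    congr 2
    ring

section iterate

variable (U : L2 →ₗᵢ[ℂ] L2) (θ₀ : L2)

/-- `((E_q) U)^n θ₀` -/
noncomputable def vit : ℕ → ℂ → L2
  | 0, _ => θ₀
  | n + 1, q => Eop q (U (vit n q))

lemma vit_diff (n : ℕ) : DifferentiableOn ℂ (vit U θ₀ n) (ball 0 1) := by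
  induction n with
  | zero => exact differentiableOn_const _
  | succ n ih =>
    have h1 : DifferentiableOn ℂ (fun q => U (vit U θ₀ n q)) (ball 0 1) :=
      (U.toContinuousLinearMap.differentiable.comp_differentiableOn ih)
    exact Eop_diff.clm_apply h1

lemma norm_vit_le (n : ℕ) {q : ℂ} (hq : ‖q‖ < 1) : ‖vit U θ₀ n q‖ ≤ ‖θ₀‖ := by
  induction n with
  | zero => exact le_rfl
  | succ n ih =>
    calc ‖vit U θ₀ (n + 1) q‖ ≤ ‖U (vit U θ₀ n q)‖ := norm_Eop_le hq _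
      _ = ‖vit U θ₀ n q‖ := U.norm_map _
      _ ≤ _ := ih

lemma vit_mean (hθ : (inner ℂ (e 0) θ₀ : ℂ) = 0) (n : ℕ) {q : ℂ} (hq : ‖q‖ < 1) :
    (inner ℂ (e 0) (vit U θ₀ n q) : ℂ) = 0 := by
  cases n with
  | zero => exact hθ
  | succ n =>
    show (inner ℂ (e 0) (Eop q (U (vit U θ₀ n q))) : ℂ) = 0
    rw [inner_Eop hq]
    simp [coef]

lemma pulse_iterate (hU : U (e 0) = e 0) (hθ : (inner ℂ (e 0) θ₀ : ℂ) = 0) {ν : ℝ} (hν : 0 < ν)
    (n : ℕ) : (fun θ => heat ν (U θ))^[n] θ₀ =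
      ((Real.exp (-(4 * Real.pi ^ 2 * ν)) : ℂ)) ^ n • vit U θ₀ n (Real.exp (-(4 * Real.pi ^ 2 * ν)) : ℂ) := by
  set q : ℂ := (Real.exp (-(4 * Real.pi ^ 2 * ν)) : ℂ) with hq
  have hq1 : ‖q‖ < 1 := by
    rw [hq, Complex.norm_real, Real.norm_eq_abs, abs_of_pos (Real.exp_pos _)]
    rw [Real.exp_lt_one_iff]
    have := Real.pi_pos
    have : 0 < 4 * Real.pi ^ 2 * ν := by positivity
    linarith
  induction n with
  | zero => simp [vit]
  | succ n ih =>
    rw [Function.iterate_succ_apply', ih]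
    have h1 : (inner ℂ (e 0) (U (q ^ n • vit U θ₀ n q)) : ℂ) = 0 := by
      rw [← hU, U.inner_map_map, inner_smul_right, vit_mean U θ₀ hθ n hq1, mul_zero]
    rw [heat_eq hν h1, ← hq]
    rw [map_smul, map_smul, smul_smul, ← pow_succ']
    rfl

end iterate

end Pool.Agent.Lib.MP_459901_an
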