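import Mathlib
import Pool.Agent.Lib.MP_459901_an.Defs

/-! The map: a cat map conjugated by a shear whose Fourier coefficients are explicit. -/

set_option autoImplicit false

open MeasureTheory UnitAddTorus Metric
open scoped ContDiff

namespace Pool.Agent.Lib.MP_459901_an

attribute [local instance] msCircle

lemma ahmCircle : Measure.IsAddHaarMeasure (volume : Measure UnitAddCircle) :=
  inferInstanceAs (Measure.IsAddHaarMeasure AddCircle.haarAddCircle)

lemma pmCircle : IsProbabilityMeasure (volume : Measure UnitAddCircle) :=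
  inferInstanceAs (IsProbabilityMeasure AddCircle.haarAddCircle)

attribute [local instance] ahmCircle pmCircle

/-- the real valued shear function on the circle -/
noncomputable def hr (x : UnitAddCircle) : ℝ :=
  Real.arctan ((fourier 1 x : ℂ).im / (2 - (fourier 1 x : ℂ).re)) / Real.pi

/-- the shear function, circle valued -/
noncomputable def hc (x : UnitAddCircle) : UnitAddCircle := ((hr x : ℝ) : UnitAddCircle)

lemma norm_fourier (n : ℤ) (x : UnitAddCircle) : ‖(fourier n x : ℂ)‖ = 1 := by
  rw [fourier_apply]
  exact Circle.norm_coe _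

lemma two_sub_re_pos (x : UnitAddCircle) : 0 < 2 - (fourier 1 x : ℂ).re := by
  have h1 := Complex.re_le_norm (fourier 1 x : ℂ)
  rw [norm_fourier] at h1
  linarith

lemma continuous_hr : Continuous hr := by
  unfold hr
  have h1 : Continuous fun x : UnitAddCircle => (fourier 1 x : ℂ) := (fourier 1).continuous
  have h2 : ∀ x : UnitAddCircle, 2 - (fourier 1 x : ℂ).re ≠ 0 := fun x => (two_sub_re_pos x).ne'
  have h3 : Continuous fun x : UnitAddCircle => (fourier 1 x : ℂ).im / (2 - (fourier 1 x : ℂ).re) :=
    (Complex.continuous_im.comp h1).div (continuous_const.sub (Complex.continuous_re.comp h1)) h2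
  exact (Real.continuous_arctan.comp h3).div_const _

lemma continuous_hc : Continuous hc :=
  (AddCircle.continuous_mk' 1).comp continuous_hr

/-- the shear `(x, y) ↦ (x, y + h x)` -/
noncomputable def shear : T2 ≃ₜ T2 where
  toFun p := ![p 0, p 1 + hc (p 0)]
  invFun p := ![p 0, p 1 - hc (p 0)]
  left_inv p := by
    funext i
    fin_cases i <;> simp
  right_inv p := by
    funext i
    fin_cases i <;> simp
  continuous_toFun := by
    have := continuous_hc
    refine continuous_pi fun i => ?_
    fin_cases i
    · exact continuous_apply 0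
    · exact (continuous_apply 1).add (this.comp (continuous_apply 0))
  continuous_invFun := by
    have := continuous_hc
    refine continuous_pi fun i => ?_
    fin_cases i
    · exact continuous_apply 0
    · exact (continuous_apply 1).sub (this.comp (continuous_apply 0))

/-- the cat map `(x, y) ↦ (2x + y, x + y)` -/
noncomputable def cat : T2 ≃ₜ T2 where
  toFun p := ![p 0 + p 0 + p 1, p 0 + p 1]
  invFun p := ![p 0 - p 1, p 1 + p 1 - p 0]
  left_inv p := by
    funext i
    fin_cases i
    · simp
    · simp; abel
  right_inv p := by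
    funext i
    fin_cases i
    · simp; abel
    · simp
  continuous_toFun := by
    refine continuous_pi fun i => ?_
    fin_cases i
    · exact ((continuous_apply 0).add (continuous_apply 0)).add (continuous_apply 1)
    · exact (continuous_apply 0).add (continuous_apply 1)
  continuous_invFun := by
    refine continuous_pi fun i => ?_
    fin_cases i
    · exact (continuous_apply 0).sub (continuous_apply 1)
    · exact ((continuous_apply 1).add (continuous_apply 1)).sub (continuous_apply 0)

/-- the map of the counterexample -/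
noncomputable def phi : T2 ≃ₜ T2 := shear.trans (cat.trans shear.symm)

lemma phi_apply (p : T2) : phi p = shear.symm (cat (shear p)) := rfl

/-- a skew shear preserves the measure -/
lemma mp_skew (g : UnitAddCircle → UnitAddCircle) (hg : Continuous g) :
    MeasurePreserving (fun p : T2 => (![p 0, p 1 + g (p 0)] : T2)) vol vol := by
  have h1 := volume_preserving_finTwoArrow UnitAddCircle
  have h2 : MeasurePreserving (fun p : UnitAddCircle × UnitAddCircle => (p.1, p.2 + g p.1))
      (volume.prod volume) (volume.prod volume) := by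
    apply MeasurePreserving.skew_product (MeasurePreserving.id volume)
      (g := fun a b => b + g a)
    · exact (continuous_snd.add (hg.comp continuous_fst)).measurable
    · exact Filter.Eventually.of_forall fun a => map_add_right_eq_self volume (g a)
  have h3 := (h1.symm).comp (h2.comp h1)
  exact h3

lemma mp_skew' (g : UnitAddCircle → UnitAddCircle) (hg : Continuous g) :
    MeasurePreserving (fun p : T2 => (![p 0 + g (p 1), p 1] : T2)) vol vol := by
  have h1 := volume_preserving_finTwoArrow UnitAddCircle
  have h2 : MeasurePreserving (fun p : UnitAddCircle × UnitAddCircle => (p.1, p.2 + g p.1))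
      (volume.prod volume) (volume.prod volume) := by
    apply MeasurePreserving.skew_product (MeasurePreserving.id volume)
      (g := fun a b => b + g a)
    · exact (continuous_snd.add (hg.comp continuous_fst)).measurable
    · exact Filter.Eventually.of_forall fun a => map_add_right_eq_self volume (g a)
  have h4 : MeasurePreserving (Prod.swap : UnitAddCircle × UnitAddCircle → _)
      (volume.prod volume) (volume.prod volume) := Measure.measurePreserving_swap
  have h3 := (h1.symm).comp (h4.comp (h2.comp (h4.comp h1)))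
  exact h3

lemma mp_shear : MeasurePreserving shear vol vol := mp_skew hc continuous_hc

lemma mp_shear_symm : MeasurePreserving shear.symm vol vol := by
  have := mp_skew (fun x => -hc x) continuous_hc.neg
  have h : (shear.symm : T2 → T2) = fun p : T2 => (![p 0, p 1 + -hc (p 0)] : T2) := by
    funext p
    show (![p 0, p 1 - hc (p 0)] : T2) = _
    rw [sub_eq_add_neg]
  rw [h]
  exact this

lemma mp_cat : MeasurePreserving cat vol vol := by
  have h1 := mp_skew (fun x => x) continuous_id
  have h2 := mp_skew' (fun x => x) continuous_id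
  have h3 := h2.comp h1
  have h : (cat : T2 → T2) = (fun p : T2 => (![p 0 + p 1, p 1] : T2)) ∘
      (fun p : T2 => (![p 0, p 1 + p 0] : T2)) := by
    funext p i
    show (![p 0 + p 0 + p 1, p 0 + p 1] : T2) i = _
    fin_cases i
    · simp; abel
    · simp; abel
  rw [h]
  exact h3

lemma mp_phi : MeasurePreserving phi vol vol :=
  mp_shear_symm.comp (mp_cat.comp mp_shear)

/-! Smoothness. -/

/-- the lift of the shear function -/
noncomputable def hR (x : ℝ) : ℝ :=
  Real.arctan (Real.sin (2 * Real.pi * x) / (2 - Real.cos (2 * Real.pi * x))) / Real.pi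

lemma fourier_one_coe (x : ℝ) : (fourier 1 (x : UnitAddCircle) : ℂ) =
    Real.cos (2 * Real.pi * x) + Real.sin (2 * Real.pi * x) * Complex.I := by
  rw [fourier_coe_apply]
  have : 2 * Real.pi * Complex.I * (1:ℤ) * x / (1:ℝ) = ((2 * Real.pi * x : ℝ) : ℂ) * Complex.I := by
    push_cast; ring
  rw [this, Complex.exp_mul_I]
  push_cast
  ring

lemma hr_coe (x : ℝ) : hr (x : UnitAddCircle) = hR x := by
  unfold hr hR
  rw [fourier_one_coe]
  simp only [Complex.add_im, Complex.add_re, Complex.ofReal_re, Complex.ofReal_im, Complex.mul_re,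
    Complex.mul_im, Complex.I_re, Complex.I_im, mul_zero, mul_one, zero_add, add_zero, sub_zero]

lemma contDiff_hR : ContDiff ℝ ∞ hR := by
  unfold hR
  have h1 : ∀ x : ℝ, 2 - Real.cos (2 * Real.pi * x) ≠ 0 := by
    intro x
    have := Real.cos_le_one (2 * Real.pi * x)
    linarith
  have h2 : ContDiff ℝ ∞ fun x : ℝ => Real.sin (2 * Real.pi * x) :=
    Real.contDiff_sin.comp (contDiff_const.mul contDiff_id)
  have h3 : ContDiff ℝ ∞ fun x : ℝ => 2 - Real.cos (2 * Real.pi * x) :=
    contDiff_const.sub (Real.contDiff_cos.comp (contDiff_const.mul contDiff_id))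
  exact (Real.contDiff_arctan.comp (h2.div h3 h1)).div_const _

/-- lift of the shear -/
noncomputable def Shear : (Fin 2 → ℝ) ≃ (Fin 2 → ℝ) where
  toFun p := ![p 0, p 1 + hR (p 0)]
  invFun p := ![p 0, p 1 - hR (p 0)]
  left_inv p := by
    funext i
    fin_cases i <;> simp
  right_inv p := by
    funext i
    fin_cases i <;> simp

/-- lift of the cat map -/
noncomputable def Cat : (Fin 2 → ℝ) ≃ (Fin 2 → ℝ) where
  toFun p := ![p 0 + p 0 + p 1, p 0 + p 1]
  invFun p := ![p 0 - p 1, p 1 + p 1 - p 0]
  left_inv p := by
    funext i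
    fin_cases i
    · simp
    · simp; ring
  right_inv p := by
    funext i
    fin_cases i
    · simp; ring
    · simp

lemma contDiff_Shear : ContDiff ℝ ∞ Shear := by
  rw [contDiff_pi]
  intro i
  fin_cases i
  · exact contDiff_apply ℝ ℝ 0
  · exact (contDiff_apply ℝ ℝ 1).add (contDiff_hR.comp (contDiff_apply ℝ ℝ 0))

lemma contDiff_Shear_symm : ContDiff ℝ ∞ Shear.symm := by
  rw [contDiff_pi]
  intro i
  fin_cases i
  · exact contDiff_apply ℝ ℝ 0
  · exact (contDiff_apply ℝ ℝ 1).sub (contDiff_hR.comp (contDiff_apply ℝ ℝ 0))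

lemma contDiff_Cat : ContDiff ℝ ∞ Cat := by
  rw [contDiff_pi]
  intro i
  fin_cases i
  · exact ((contDiff_apply ℝ ℝ 0).add (contDiff_apply ℝ ℝ 0)).add (contDiff_apply ℝ ℝ 1)
  · exact (contDiff_apply ℝ ℝ 0).add (contDiff_apply ℝ ℝ 1)

lemma contDiff_Cat_symm : ContDiff ℝ ∞ Cat.symm := by
  rw [contDiff_pi]
  intro i
  fin_cases i
  · exact (contDiff_apply ℝ ℝ 0).sub (contDiff_apply ℝ ℝ 1)
  · exact ((contDiff_apply ℝ ℝ 1).add (contDiff_apply ℝ ℝ 1)).sub (contDiff_apply ℝ ℝ 0)

lemma proj_Shear (x : Fin 2 → ℝ) : shear (proj x) = proj (Shear x) := by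
  funext i
  fin_cases i
  · rfl
  · show ((x 1 : ℝ) : UnitAddCircle) + hc ((x 0 : ℝ) : UnitAddCircle) = ((x 1 + hR (x 0) : ℝ) : UnitAddCircle)
    rw [AddCircle.coe_add, hc, hr_coe]

lemma proj_Shear_symm (x : Fin 2 → ℝ) : shear.symm (proj x) = proj (Shear.symm x) := by
  rw [Homeomorph.symm_apply_eq, proj_Shear, Equiv.apply_symm_apply]

lemma proj_Cat (x : Fin 2 → ℝ) : cat (proj x) = proj (Cat x) := by
  funext i
  fin_cases i
  · show ((x 0 : ℝ) : UnitAddCircle) + ((x 0 : ℝ) : UnitAddCircle) + ((x 1 : ℝ) : UnitAddCircle) =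
      ((x 0 + x 0 + x 1 : ℝ) : UnitAddCircle)
    rw [AddCircle.coe_add, AddCircle.coe_add]
  · show ((x 0 : ℝ) : UnitAddCircle) + ((x 1 : ℝ) : UnitAddCircle) = ((x 0 + x 1 : ℝ) : UnitAddCircle)
    rw [AddCircle.coe_add]

lemma phi_smooth : IsSmoothDiffeo phi := by
  refine ⟨phi.bijective, Shear.trans (Cat.trans Shear.symm),
    (Shear.trans (Cat.trans Shear.symm)).symm, ?_, ?_, ?_, ?_, ?_⟩
  · exact contDiff_Shear_symm.comp (contDiff_Cat.comp contDiff_Shear)
  · exact contDiff_Shear_symm.comp (contDiff_Cat_symm.comp contDiff_Shear)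
  · exact fun x => Equiv.symm_apply_apply _ x
  · exact fun x => Equiv.apply_symm_apply _ x
  · intro x
    rw [phi_apply, proj_Shear, proj_Cat, proj_Shear_symm]
    rfl

end Pool.Agent.Lib.MP_459901_an
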