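import Mathlib
import Pool.Agent.Lib.MP_459901_an.Defs
import Pool.Agent.Lib.MP_459901_an.Map
import Pool.Agent.Lib.MP_459901_an.Eop

/-! Koopman operators and their action on characters. -/

set_option autoImplicit false

open MeasureTheory UnitAddTorus Metric
open scoped ContDiff ComplexConjugate

namespace Pool.Agent.Lib.MP_459901_an

attribute [local instance] msCircle ahmCircle pmCircle

lemma fourier_add_arg (n : ℤ) (x y : UnitAddCircle) :
    (fourier n (x + y) : ℂ) = fourier n x * fourier n y := by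
  rw [fourier_apply, fourier_apply, fourier_apply, smul_add, AddCircle.toCircle_add, Circle.coe_mul]

lemma fourier_neg_arg (n : ℤ) (x : UnitAddCircle) :
    (fourier n (-x) : ℂ) = conj (fourier n x : ℂ) := by
  rw [← fourier_neg, fourier_apply, fourier_apply, smul_neg, neg_smul]

lemma mFourier_apply (k : Fin 2 → ℤ) (p : T2) :
    (mFourier k p : ℂ) = fourier (k 0) (p 0) * fourier (k 1) (p 1) := by
  simp [mFourier, Fin.prod_univ_two]

/-- Koopman operators as linear isometries -/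
noncomputable def koop (φ : T2 → T2) (hφ : MeasurePreserving φ vol vol) : L2 →ₗᵢ[ℂ] L2 :=
  Lp.compMeasurePreservingₗᵢ ℂ φ hφ

lemma koop_eq (φ : T2 → T2) (hφ : MeasurePreserving φ vol vol) (f : L2) :
    koopman φ hφ f = koop φ hφ f := rfl

lemma koop_toLp (φ : T2 ≃ₜ T2) (hφ : MeasurePreserving φ vol vol) (f : C(T2, ℂ)) :
    koop φ hφ (ContinuousMap.toLp 2 vol ℂ f) =
      ContinuousMap.toLp 2 vol ℂ (f.comp ⟨φ, φ.continuous⟩) := by
  apply Lp.ext
  have h1 : (koop φ hφ (ContinuousMap.toLp 2 vol ℂ f) : T2 → ℂ) =ᵐ[vol]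
      (ContinuousMap.toLp 2 vol ℂ f : T2 → ℂ) ∘ φ :=
    Lp.coeFn_compMeasurePreserving _ hφ
  have h2 : (ContinuousMap.toLp 2 vol ℂ f : T2 → ℂ) ∘ φ =ᵐ[vol] f ∘ φ :=
    hφ.quasiMeasurePreserving.ae_eq_comp (ContinuousMap.coeFn_toLp vol f)
  have h3 : (ContinuousMap.toLp 2 vol ℂ (f.comp ⟨φ, φ.continuous⟩) : T2 → ℂ) =ᵐ[vol]
      (f.comp ⟨φ, φ.continuous⟩ : C(T2, ℂ)) := ContinuousMap.coeFn_toLp vol _
  exact h1.trans (h2.trans h3.symm)

lemma koop_comp (φ ψ : T2 → T2) (hφ : MeasurePreserving φ vol vol) (hψ : MeasurePreserving ψ vol vol)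
    (f : L2) : koop (φ ∘ ψ) (hφ.comp hψ) f = koop ψ hψ (koop φ hφ f) :=
  Lp.compMeasurePreserving_comp_apply f hφ hψ

/-- the operator of the counterexample -/
noncomputable def U : L2 →ₗᵢ[ℂ] L2 := koop phi mp_phi
/-- composition with the shear -/
noncomputable def KB : L2 →ₗᵢ[ℂ] L2 := koop shear mp_shear
/-- composition with the inverse shear -/
noncomputable def KBi : L2 →ₗᵢ[ℂ] L2 := koop shear.symm mp_shear_symm
/-- composition with the cat map -/
noncomputable def KC : L2 →ₗᵢ[ℂ] L2 := koop cat mp_cat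

lemma U_eq (f : L2) : U f = KB (KC (KBi f)) := by
  have h1 := koop_comp shear.symm (cat ∘ shear) mp_shear_symm (mp_cat.comp mp_shear) f
  have h2 := koop_comp cat shear mp_cat mp_shear (koop shear.symm mp_shear_symm f)
  rw [h2] at h1
  exact h1

lemma koop_id (f : L2) (h : MeasurePreserving (id : T2 → T2) vol vol) : koop id h f = f :=
  Lp.compMeasurePreserving_id_apply f

lemma koop_congr {φ ψ : T2 → T2} (h : φ = ψ) (hφ : MeasurePreserving φ vol vol)
    (hψ : MeasurePreserving ψ vol vol) (f : L2) : koop φ hφ f = koop ψ hψ f := by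
  subst h; rfl

lemma KB_KBi (f : L2) : KB (KBi f) = f := by
  unfold KB KBi
  rw [← koop_comp]
  have h : (shear.symm : T2 → T2) ∘ shear = id := by
    funext p; simp
  rw [koop_congr h _ (MeasurePreserving.id vol), koop_id]

lemma KBi_KB (f : L2) : KBi (KB f) = f := by
  unfold KB KBi
  rw [← koop_comp]
  have h : (shear : T2 → T2) ∘ shear.symm = id := by
    funext p; simp
  rw [koop_congr h _ (MeasurePreserving.id vol), koop_id]

/-- integer vectors -/
def v (a b : ℤ) : Fin 2 → ℤ := ![a, b]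

@[simp] lemma v_zero (a b : ℤ) : v a b 0 = a := rfl
@[simp] lemma v_one (a b : ℤ) : v a b 1 = b := rfl

lemma v_ext {k l : Fin 2 → ℤ} (h0 : k 0 = l 0) (h1 : k 1 = l 1) : k = l := by
  funext i
  fin_cases i
  · exact h0
  · exact h1

/-- the matrix acting on frequencies -/
def Ak (k : Fin 2 → ℤ) : Fin 2 → ℤ := v (2 * k 0 + k 1) (k 0 + k 1)

/-- its inverse -/
def Aki (k : Fin 2 → ℤ) : Fin 2 → ℤ := v (k 0 - k 1) (2 * k 1 - k 0)

lemma Ak_Aki (k : Fin 2 → ℤ) : Ak (Aki k) = k := by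
  apply v_ext <;> simp [Ak, Aki] <;> ring

lemma Aki_Ak (k : Fin 2 → ℤ) : Aki (Ak k) = k := by
  apply v_ext <;> simp [Ak, Aki] <;> ring

lemma KC_e (k : Fin 2 → ℤ) : KC (e k) = e (Ak k) := by
  unfold KC
  show koop cat mp_cat (ContinuousMap.toLp 2 vol ℂ (mFourier k)) = _
  rw [koop_toLp]
  congr 1
  ext p
  show (mFourier k (cat p) : ℂ) = mFourier (Ak k) p
  rw [mFourier_apply, mFourier_apply]
  show (fourier (k 0) (p 0 + p 0 + p 1) : ℂ) * fourier (k 1) (p 0 + p 1) = _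
  rw [fourier_add_arg, fourier_add_arg, fourier_add_arg]
  simp only [Ak, v_zero, v_one]
  rw [fourier_add, fourier_add, two_mul, fourier_add]
  ring

lemma KBi_e_of {k : Fin 2 → ℤ} (hk : k 1 = 0) : KBi (e k) = e k := by
  unfold KBi
  show koop shear.symm mp_shear_symm (ContinuousMap.toLp 2 vol ℂ (mFourier k)) = _
  rw [koop_toLp]
  congr 1
  ext p
  show (mFourier k (shear.symm p) : ℂ) = mFourier k p
  rw [mFourier_apply, mFourier_apply, hk]
  show (fourier (k 0) (p 0) : ℂ) * fourier 0 (p 1 - hc (p 0)) = _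
  rw [fourier_zero, fourier_zero]

lemma U_e0 : U (e 0) = e 0 := by
  have h : (0 : Fin 2 → ℤ) 1 = 0 := rfl
  rw [U_eq, KBi_e_of h, KC_e]
  have h2 : Ak 0 = 0 := by
    apply v_ext <;> simp [Ak]
  rw [h2]
  have := KB_KBi (e 0)
  rwa [KBi_e_of h] at this

/-- the key identity of the shear -/
lemma key_b (x : UnitAddCircle) :
    (fourier 1 (hc x) : ℂ) * (2 - fourier 1 x) = 2 - conj (fourier 1 x : ℂ) := by
  set z : ℂ := (fourier 1 x : ℂ) with hz
  have hpos : 0 < 2 - z.re := two_sub_re_pos x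
  set t : ℝ := z.im / (2 - z.re) with ht
  have h1 : (fourier 1 (hc x) : ℂ) = Complex.exp (((Real.arctan t : ℝ) : ℂ) * Complex.I) ^ 2 := by
    have : (fourier 1 (hc x) : ℂ) = Complex.exp (2 * Real.pi * Complex.I * (1:ℤ) * (hr x : ℝ) / (1:ℝ)) :=
      fourier_coe_apply
    have hhr : hr x = Real.arctan t / Real.pi := rfl
    rw [this, ← Complex.exp_nat_mul, hhr]
    congr 1
    have hpi : (Real.pi : ℂ) ≠ 0 := by exact_mod_cast Real.pi_ne_zero
    rw [Complex.ofReal_div]
    push_cast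
    field_simp
  have h2 : Complex.exp (((Real.arctan t : ℝ) : ℂ) * Complex.I) =
      ((1 / √(1 + t ^ 2) : ℝ) : ℂ) * (1 + t * Complex.I) := by
    rw [Complex.exp_mul_I, ← Complex.ofReal_cos, ← Complex.ofReal_sin, Real.cos_arctan,
      Real.sin_arctan]
    push_cast
    ring
  have h3 : ((1 / √(1 + t ^ 2) : ℝ) : ℂ) ^ 2 * (1 + (t:ℂ) ^ 2) = 1 := by
    rw [← Complex.ofReal_pow, div_pow, Real.sq_sqrt (by positivity), one_pow]
    have : ((1:ℝ) + t ^ 2) ≠ 0 := by positivity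
    rw [← Complex.ofReal_one, ← Complex.ofReal_pow, ← Complex.ofReal_add, ← Complex.ofReal_mul]
    congr 1
    field_simp
  have htD : (2 - z.re) * t = z.im := by
    rw [ht]; field_simp
  have h4 : z = 2 - ((2 - z.re : ℝ) : ℂ) * (1 - t * Complex.I) := by
    apply Complex.ext
    · simp
    · simp [htD]
  have h5 : conj z = 2 - ((2 - z.re : ℝ) : ℂ) * (1 + t * Complex.I) := by
    apply Complex.ext
    · simp
    · simp [htD]
  have hI : Complex.I ^ 2 = -1 := Complex.I_sq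
  rw [h1, h2, h5]
  have h6 : (2:ℂ) - z = ((2 - z.re : ℝ) : ℂ) * (1 - t * Complex.I) := by
    rw [sub_eq_iff_eq_add]
    nth_rewrite 2 [h4]
    ring
  rw [h6]
  set D : ℂ := ((2 - z.re : ℝ) : ℂ)
  set s : ℂ := ((1 / √(1 + t ^ 2) : ℝ) : ℂ)
  linear_combination (D * (1 + t * Complex.I)) * h3 - (s ^ 2 * D * (1 + t * Complex.I) * t ^ 2) * hI

end Pool.Agent.Lib.MP_459901_an
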