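import Mathlib
import Pool.Agent.Lib.MP_459901_an.Defs
import Pool.Agent.Lib.MP_459901_an.Map
import Pool.Agent.Lib.MP_459901_an.Eop
import Pool.Agent.Lib.MP_459901_an.Koop

/-! Regularity of `f ∘ shear⁻¹`. -/

set_option autoImplicit false

open MeasureTheory UnitAddTorus Metric Filter Topology
open scoped ContDiff ComplexConjugate

namespace Pool.Agent.Lib.MP_459901_an

attribute [local instance] msCircle ahmCircle pmCircle

lemma fourier_coe_exp (n : ℤ) (t : ℝ) : (fourier n (t : UnitAddCircle) : ℂ) =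
    Complex.exp (Complex.I * ((2 * Real.pi * n * t : ℝ) : ℂ)) := by
  rw [fourier_coe_apply]
  congr 1
  push_cast
  ring

lemma norm_fourier_coe_sub_one (n : ℤ) (t : ℝ) :
    ‖(fourier n (t : UnitAddCircle) : ℂ) - 1‖ ≤ 2 * Real.pi * |(n:ℝ)| * |t| := by
  rw [fourier_coe_exp]
  refine Real.norm_exp_I_mul_ofReal_sub_one_le.trans (le_of_eq ?_)
  rw [Real.norm_eq_abs, abs_mul, abs_mul, abs_mul, abs_of_pos Real.pi_pos]
  norm_num

lemma norm_fourier_coe_sub (n : ℤ) (s t : ℝ) :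
    ‖(fourier n (s : UnitAddCircle) : ℂ) - fourier n (t : UnitAddCircle)‖ ≤
      2 * Real.pi * |(n:ℝ)| * |s - t| := by
  have h : (fourier n (s : UnitAddCircle) : ℂ) - fourier n (t : UnitAddCircle) =
      fourier n (t : UnitAddCircle) * (fourier n ((s - t : ℝ) : UnitAddCircle) - 1) := by
    rw [mul_sub, mul_one, ← fourier_add_arg, ← AddCircle.coe_add]
    congr 3
    ring_nf
  rw [h, norm_mul, norm_fourier, one_mul]
  exact norm_fourier_coe_sub_one n (s - t)

lemma arctan_lip (a b : ℝ) : |Real.arctan a - Real.arctan b| ≤ |a - b| := by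
  have h := Convex.norm_image_sub_le_of_norm_deriv_le (f := Real.arctan) (C := 1) (s := Set.univ)
    (x := b) (y := a) (fun x _ => Real.differentiableAt_arctan x)
    (fun x _ => by
      rw [Real.deriv_arctan, Real.norm_eq_abs, abs_of_pos (by positivity)]
      rw [div_le_one (by positivity)]
      nlinarith [sq_nonneg x]) convex_univ (Set.mem_univ _) (Set.mem_univ _)
  simpa [Real.norm_eq_abs] using h

lemma ratio_lip {z w : ℂ} (hz : ‖z‖ = 1) (hw : ‖w‖ = 1) :
    |z.im / (2 - z.re) - w.im / (2 - w.re)| ≤ 2 * ‖z - w‖ := by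
  have h1 : 1 ≤ 2 - z.re := by have := Complex.re_le_norm z; linarith
  have h2 : 1 ≤ 2 - w.re := by have := Complex.re_le_norm w; linarith
  have h3 : |w.im| ≤ 1 := by have := Complex.abs_im_le_norm w; linarith
  have h4 : |z.im - w.im| ≤ ‖z - w‖ := by simpa using Complex.abs_im_le_norm (z - w)
  have h5 : |z.re - w.re| ≤ ‖z - w‖ := by simpa using Complex.abs_re_le_norm (z - w)
  have e : z.im / (2 - z.re) - w.im / (2 - w.re) =
      (z.im - w.im) / (2 - z.re) + w.im * (z.re - w.re) / ((2 - z.re) * (2 - w.re)) := by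
    field_simp
    ring
  rw [e]
  refine (abs_add_le _ _).trans ?_
  rw [abs_div, abs_div, abs_mul, abs_mul, abs_of_pos (by linarith : 0 < 2 - z.re),
    abs_of_pos (by linarith : 0 < 2 - w.re)]
  have h6 : |z.im - w.im| / (2 - z.re) ≤ ‖z - w‖ := by
    rw [div_le_iff₀ (by linarith)]
    nlinarith [norm_nonneg (z - w)]
  have h7 : |w.im| * |z.re - w.re| / ((2 - z.re) * (2 - w.re)) ≤ ‖z - w‖ := by
    rw [div_le_iff₀ (by nlinarith)]
    have h8 : |w.im| * |z.re - w.re| ≤ 1 * ‖z - w‖ := by gcongr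
    have h9 : 1 ≤ (2 - z.re) * (2 - w.re) := by nlinarith
    nlinarith [norm_nonneg (z - w)]
  linarith

lemma hr_lip (x : UnitAddCircle) (t : ℝ) : |hr (x + t) - hr x| ≤ 4 * |t| := by
  unfold hr
  rw [← sub_div, abs_div, abs_of_pos Real.pi_pos, div_le_iff₀ Real.pi_pos]
  refine (arctan_lip _ _).trans ?_
  refine (ratio_lip (norm_fourier 1 _) (norm_fourier 1 _)).trans ?_
  rw [fourier_add_arg]
  have h : (fourier 1 x : ℂ) * fourier 1 (t : UnitAddCircle) - fourier 1 x =
      fourier 1 x * (fourier 1 (t : UnitAddCircle) - 1) := by ring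
  rw [h, norm_mul, norm_fourier, one_mul]
  have := norm_fourier_coe_sub_one 1 t
  have h1 : |((1:ℤ):ℝ)| = 1 := by simp
  rw [h1] at this
  linarith

/-- translations -/
noncomputable def trX (t : ℝ) : T2 ≃ₜ T2 where
  toFun p := ![p 0 + t, p 1]
  invFun p := ![p 0 - t, p 1]
  left_inv p := by
    funext i
    fin_cases i <;> simp
  right_inv p := by
    funext i
    fin_cases i <;> simp
  continuous_toFun := by
    refine continuous_pi fun i => ?_
    fin_cases i
    · exact (continuous_apply 0).add continuous_const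
    · exact continuous_apply 1
  continuous_invFun := by
    refine continuous_pi fun i => ?_
    fin_cases i
    · exact (continuous_apply 0).sub continuous_const
    · exact continuous_apply 1

/-- translations -/
noncomputable def trY (t : ℝ) : T2 ≃ₜ T2 where
  toFun p := ![p 0, p 1 + t]
  invFun p := ![p 0, p 1 - t]
  left_inv p := by
    funext i
    fin_cases i <;> simp
  right_inv p := by
    funext i
    fin_cases i <;> simp
  continuous_toFun := by
    refine continuous_pi fun i => ?_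
    fin_cases i
    · exact continuous_apply 0
    · exact (continuous_apply 1).add continuous_const
  continuous_invFun := by
    refine continuous_pi fun i => ?_
    fin_cases i
    · exact continuous_apply 0
    · exact (continuous_apply 1).sub continuous_const

lemma mp_trX (t : ℝ) : MeasurePreserving (trX t) vol vol :=
  mp_skew' (fun _ => (t : UnitAddCircle)) continuous_const

lemma mp_trY (t : ℝ) : MeasurePreserving (trY t) vol vol :=
  mp_skew (fun _ => (t : UnitAddCircle)) continuous_const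

lemma koop_trX_e (t : ℝ) (k : Fin 2 → ℤ) :
    koop (trX t) (mp_trX t) (e k) = (fourier (k 0) (t : UnitAddCircle) : ℂ) • e k := by
  show koop (trX t) (mp_trX t) (ContinuousMap.toLp 2 vol ℂ (mFourier k)) =
    (fourier (k 0) (t : UnitAddCircle) : ℂ) • ContinuousMap.toLp 2 vol ℂ (mFourier k)
  rw [koop_toLp, ← map_smul]
  congr 1
  ext p
  show (mFourier k (trX t p) : ℂ) = (fourier (k 0) (t : UnitAddCircle) : ℂ) * mFourier k p
  rw [mFourier_apply, mFourier_apply]
  show (fourier (k 0) (p 0 + (t : UnitAddCircle)) : ℂ) * fourier (k 1) (p 1) = _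
  rw [fourier_add_arg]
  ring

lemma koop_trY_e (t : ℝ) (k : Fin 2 → ℤ) :
    koop (trY t) (mp_trY t) (e k) = (fourier (k 1) (t : UnitAddCircle) : ℂ) • e k := by
  show koop (trY t) (mp_trY t) (ContinuousMap.toLp 2 vol ℂ (mFourier k)) =
    (fourier (k 1) (t : UnitAddCircle) : ℂ) • ContinuousMap.toLp 2 vol ℂ (mFourier k)
  rw [koop_toLp, ← map_smul]
  congr 1
  ext p
  show (mFourier k (trY t p) : ℂ) = (fourier (k 1) (t : UnitAddCircle) : ℂ) * mFourier k p
  rw [mFourier_apply, mFourier_apply]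
  show (fourier (k 0) (p 0) : ℂ) * fourier (k 1) (p 1 + (t : UnitAddCircle)) = _
  rw [fourier_add_arg]
  ring

lemma norm_toLp_le (f : C(T2, ℂ)) {M : ℝ} (hM : 0 ≤ M) (h : ∀ p, ‖f p‖ ≤ M) :
    ‖(ContinuousMap.toLp 2 vol ℂ f : L2)‖ ≤ M := by
  have h1 : ‖(ContinuousMap.toLp 2 vol ℂ : C(T2, ℂ) →L[ℂ] L2)‖ ≤ 1 := by
    have := ContinuousMap.toLp_norm_le (μ := vol) (p := 2) (E := ℂ) (𝕜 := ℂ) (α := T2)
    refine this.trans ?_
    have h2 : (measureUnivNNReal vol) = 1 := by
      unfold measureUnivNNReal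
      rw [measure_univ]
      rfl
    rw [h2]
    simp
  calc ‖(ContinuousMap.toLp 2 vol ℂ f : L2)‖ ≤ ‖(ContinuousMap.toLp 2 vol ℂ : C(T2, ℂ) →L[ℂ] L2)‖ * ‖f‖ :=
        ContinuousLinearMap.le_opNorm _ _
    _ ≤ 1 * ‖f‖ := by gcongr
    _ = ‖f‖ := one_mul _
    _ ≤ M := (ContinuousMap.norm_le f hM).mpr h

lemma mul_diff_le {a b c d : ℂ} (ha : ‖a‖ = 1) (hd : ‖d‖ = 1) : ‖a * b - c * d‖ ≤ ‖a - c‖ + ‖b - d‖ := by
  have : a * b - c * d = a * (b - d) + (a - c) * d := by ring
  rw [this]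
  refine (norm_add_le _ _).trans ?_
  rw [norm_mul, norm_mul, ha, hd]
  linarith

/-- the size of a frequency -/
noncomputable def w1 (k : Fin 2 → ℤ) : ℝ := |(k 0 : ℝ)| + |(k 1 : ℝ)|

lemma w1_nonneg (k : Fin 2 → ℤ) : 0 ≤ w1 k := by unfold w1; positivity

lemma diffX_e (t : ℝ) (k : Fin 2 → ℤ) :
    ‖koop (trX t) (mp_trX t) (KBi (e k)) - KBi (e k)‖ ≤ 8 * Real.pi * |t| * w1 k := by
  have hpi := Real.pi_pos
  show ‖koop (trX t) (mp_trX t) (koop shear.symm mp_shear_symm (ContinuousMap.toLp 2 vol ℂ (mFourier k))) -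
    koop shear.symm mp_shear_symm (ContinuousMap.toLp 2 vol ℂ (mFourier k))‖ ≤ _
  rw [koop_toLp, koop_toLp, ← map_sub]
  have hw := w1_nonneg k
  apply norm_toLp_le _ (by positivity)
  intro p
  show ‖(mFourier k (shear.symm (trX t p)) : ℂ) - mFourier k (shear.symm p)‖ ≤ _
  rw [mFourier_apply, mFourier_apply]
  show ‖(fourier (k 0) (p 0 + (t : UnitAddCircle)) : ℂ) *
    fourier (k 1) (p 1 - hc (p 0 + (t : UnitAddCircle))) -
    fourier (k 0) (p 0) * fourier (k 1) (p 1 - hc (p 0))‖ ≤ _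
  refine (mul_diff_le (norm_fourier _ _) (norm_fourier _ _)).trans ?_
  have h1 : ‖(fourier (k 0) (p 0 + (t : UnitAddCircle)) : ℂ) - fourier (k 0) (p 0)‖ ≤ 2 * Real.pi * |(k 0 : ℝ)| * |t| := by
    rw [fourier_add_arg]
    have h : (fourier (k 0) (p 0) : ℂ) * fourier (k 0) (t : UnitAddCircle) - fourier (k 0) (p 0) =
        fourier (k 0) (p 0) * (fourier (k 0) (t : UnitAddCircle) - 1) := by ring
    rw [h, norm_mul, norm_fourier, one_mul]
    exact norm_fourier_coe_sub_one _ _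
  have h2 : ‖(fourier (k 1) (p 1 - hc (p 0 + (t : UnitAddCircle))) : ℂ) -
      fourier (k 1) (p 1 - hc (p 0))‖ ≤
      2 * Real.pi * |(k 1 : ℝ)| * (4 * |t|) := by
    have e3 : ∀ y : UnitAddCircle, (fourier (k 1) (p 1 - y) : ℂ) =
        fourier (k 1) (p 1) * fourier (k 1) (-y) := by
      intro y; rw [sub_eq_add_neg, fourier_add_arg]
    rw [e3, e3, ← mul_sub, norm_mul, norm_fourier, one_mul]
    have e1 : ∀ x : UnitAddCircle, -hc x = ((-hr x : ℝ) : UnitAddCircle) := by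
      intro x; unfold hc; rw [AddCircle.coe_neg]
    rw [e1, e1]
    refine (norm_fourier_coe_sub _ _ _).trans ?_
    gcongr
    have := hr_lip (p 0) t
    have e2 : -hr (p 0 + (t : UnitAddCircle)) - -hr (p 0) =
        -(hr (p 0 + (t : UnitAddCircle)) - hr (p 0)) := by ring
    rw [e2, abs_neg]
    exact this
  unfold w1
  nlinarith [abs_nonneg t, abs_nonneg (k 0 : ℝ), mul_nonneg hpi.le (mul_nonneg (abs_nonneg (k 0 : ℝ)) (abs_nonneg t))]

lemma diffY_e (t : ℝ) (k : Fin 2 → ℤ) :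
    ‖koop (trY t) (mp_trY t) (KBi (e k)) - KBi (e k)‖ ≤ 8 * Real.pi * |t| * w1 k := by
  have hpi := Real.pi_pos
  show ‖koop (trY t) (mp_trY t) (koop shear.symm mp_shear_symm (ContinuousMap.toLp 2 vol ℂ (mFourier k))) -
    koop shear.symm mp_shear_symm (ContinuousMap.toLp 2 vol ℂ (mFourier k))‖ ≤ _
  rw [koop_toLp, koop_toLp, ← map_sub]
  have hw := w1_nonneg k
  apply norm_toLp_le _ (by positivity)
  intro p
  show ‖(mFourier k (shear.symm (trY t p)) : ℂ) - mFourier k (shear.symm p)‖ ≤ _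
  rw [mFourier_apply, mFourier_apply]
  show ‖(fourier (k 0) (p 0) : ℂ) * fourier (k 1) (p 1 + (t : UnitAddCircle) - hc (p 0)) -
    fourier (k 0) (p 0) * fourier (k 1) (p 1 - hc (p 0))‖ ≤ _
  rw [← mul_sub, norm_mul, norm_fourier, one_mul]
  have h1 : p 1 + (t : UnitAddCircle) - hc (p 0) = (p 1 - hc (p 0)) + (t : UnitAddCircle) := by abel
  rw [h1, fourier_add_arg]
  have h : (fourier (k 1) (p 1 - hc (p 0)) : ℂ) * fourier (k 1) (t : UnitAddCircle) -
      fourier (k 1) (p 1 - hc (p 0)) =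
      fourier (k 1) (p 1 - hc (p 0)) * (fourier (k 1) (t : UnitAddCircle) - 1) := by ring
  rw [h, norm_mul, norm_fourier, one_mul]
  refine (norm_fourier_coe_sub_one _ _).trans ?_
  unfold w1
  nlinarith [mul_nonneg hpi.le (mul_nonneg (abs_nonneg (k 0 : ℝ)) (abs_nonneg t)),
    mul_nonneg hpi.le (mul_nonneg (abs_nonneg (k 1 : ℝ)) (abs_nonneg t))]

/-- passing from characters to general functions -/
lemma diff_general (T : L2 →ₗᵢ[ℂ] L2) {K : ℝ} 
    (hT : ∀ k, ‖T (KBi (e k)) - KBi (e k)‖ ≤ K * w1 k) {f : L2}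
    (hf : Summable fun k => ‖(inner ℂ (e k) f : ℂ)‖ * w1 k) :
    ‖T (KBi f) - KBi f‖ ≤ K * ∑' k, ‖(inner ℂ (e k) f : ℂ)‖ * w1 k := by
  have h1 := hasSum_mFourier_series_L2 f
  simp only [← inner_e] at h1
  set D : L2 →L[ℂ] L2 := (T.toContinuousLinearMap.comp KBi.toContinuousLinearMap) -
    KBi.toContinuousLinearMap with hD
  have hDa : ∀ x, D x = T (KBi x) - KBi x := fun x => rfl
  have h2 := D.hasSum h1
  rw [← hDa, ← tsum_mul_left]
  refine h2.norm_le_of_bounded (hf.mul_left K).hasSum ?_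
  intro k
  simp only [map_smul]
  rw [norm_smul, hDa]
  calc ‖(inner ℂ (e k) f : ℂ)‖ * ‖T (KBi (e k)) - KBi (e k)‖ ≤ ‖(inner ℂ (e k) f : ℂ)‖ * (K * w1 k) := by
        gcongr
        exact hT k
    _ = K * (‖(inner ℂ (e k) f : ℂ)‖ * w1 k) := by ring

/-- finite-difference quotients control weighted sums -/
lemma weight_bound (T : ℝ → L2 →ₗᵢ[ℂ] L2) (j : Fin 2)
    (hT : ∀ (t : ℝ) k, T t (e k) = (fourier (k j) (t : UnitAddCircle) : ℂ) • e k) {K : ℝ} (F : L2)
    (hF : ∀ t : ℝ, 0 < t → ‖T t F - F‖ ≤ K * t) (s : Finset (Fin 2 → ℤ)) :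
    ∑ l ∈ s, (2 * Real.pi * |(l j : ℝ)|) ^ 2 * ‖(inner ℂ (e l) F : ℂ)‖ ^ 2 ≤ K ^ 2 := by
  have hcoef : ∀ (t : ℝ) l, (inner ℂ (e l) (T t F - F) : ℂ) =
      ((fourier (l j) (t : UnitAddCircle) : ℂ) - 1) * inner ℂ (e l) F := by
    intro t l
    rw [inner_sub_right, sub_mul, one_mul]
    congr 1
    set χ := (fourier (l j) (t : UnitAddCircle) : ℂ) with hχ
    have hn : χ * conj χ = 1 := by
      rw [Complex.mul_conj, Complex.normSq_eq_norm_sq, norm_fourier]; simp
    have h1 : e l = (conj χ) • T t (e l) := by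
      rw [hT, smul_smul, mul_comm, hn, one_smul]
    nth_rewrite 1 [h1]
    rw [inner_smul_left, Complex.conj_conj, (T t).inner_map_map]
  have hbd : ∀ t : ℝ, 0 < t → ∑ l ∈ s, (‖(fourier (l j) (t : UnitAddCircle) : ℂ) - 1‖ / t) ^ 2 *
      ‖(inner ℂ (e l) F : ℂ)‖ ^ 2 ≤ K ^ 2 := by
    intro t ht
    have h1 := orthonormal_mFourier.sum_inner_products_le (x := T t F - F) (s := s) (𝕜 := ℂ)
    have h2 : ∑ l ∈ s, ‖(fourier (l j) (t : UnitAddCircle) : ℂ) - 1‖ ^ 2 *
      ‖(inner ℂ (e l) F : ℂ)‖ ^ 2 ≤ (K * t) ^ 2 := by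
      calc ∑ l ∈ s, ‖(fourier (l j) (t : UnitAddCircle) : ℂ) - 1‖ ^ 2 * ‖(inner ℂ (e l) F : ℂ)‖ ^ 2
          = ∑ l ∈ s, ‖(inner ℂ (e l) (T t F - F) : ℂ)‖ ^ 2 := by
            apply Finset.sum_congr rfl
            intro l _
            rw [hcoef, norm_mul, mul_pow]
        _ ≤ ‖T t F - F‖ ^ 2 := h1
        _ ≤ (K * t) ^ 2 := by
            gcongr
            exact hF t ht
    have h3 : ∑ l ∈ s, (‖(fourier (l j) (t : UnitAddCircle) : ℂ) - 1‖ / t) ^ 2 *
        ‖(inner ℂ (e l) F : ℂ)‖ ^ 2 = (∑ l ∈ s, ‖(fourier (l j) (t : UnitAddCircle) : ℂ) - 1‖ ^ 2 *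
        ‖(inner ℂ (e l) F : ℂ)‖ ^ 2) / t ^ 2 := by
      rw [Finset.sum_div]
      apply Finset.sum_congr rfl
      intro l _
      rw [div_pow]; ring
    rw [h3, div_le_iff₀ (by positivity), ← mul_pow]
    exact h2
  have hlim : Tendsto (fun t : ℝ => ∑ l ∈ s, (‖(fourier (l j) (t : UnitAddCircle) : ℂ) - 1‖ / t) ^ 2 *
      ‖(inner ℂ (e l) F : ℂ)‖ ^ 2) (𝓝[>] 0)
      (𝓝 (∑ l ∈ s, (2 * Real.pi * |(l j : ℝ)|) ^ 2 * ‖(inner ℂ (e l) F : ℂ)‖ ^ 2)) := by
    apply tendsto_finsetSum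
    intro l _
    apply Tendsto.mul_const
    apply Tendsto.pow
    have h1 : HasDerivAt (fun t : ℝ => (fourier (l j) (t : UnitAddCircle) : ℂ))
        (Complex.I * (2 * Real.pi * (l j))) 0 := by
      have h2 : HasDerivAt (fun t : ℝ => Complex.I * ((2 * Real.pi * (l j) * t : ℝ) : ℂ))
          (Complex.I * (2 * Real.pi * (l j))) 0 := by
        have h3 : HasDerivAt (fun t : ℝ => (t : ℂ)) 1 0 := Complex.ofRealCLM.hasDerivAt
        have h4 := (h3.const_mul (2 * Real.pi * (l j) : ℂ)).const_mul Complex.I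
        refine (h4.congr_deriv (by ring)).congr_of_eventuallyEq ?_
        refine Eventually.of_forall fun t => ?_
        simp only
        push_cast
        ring
      have h5 := h2.cexp
      have h6 : (fun t : ℝ => (fourier (l j) (t : UnitAddCircle) : ℂ)) =
          fun t : ℝ => Complex.exp (Complex.I * ((2 * Real.pi * (l j) * t : ℝ) : ℂ)) := by
        funext t; exact fourier_coe_exp _ _
      rw [h6]
      refine h5.congr_deriv ?_
      simp
    have h7 := h1.tendsto_slope_zero_right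
    have h8 := h7.norm
    have h9 : ‖Complex.I * (2 * Real.pi * (l j : ℂ))‖ = 2 * Real.pi * |(l j : ℝ)| := by
      rw [norm_mul, Complex.norm_I, one_mul, norm_mul, norm_mul, Complex.norm_real,
        Real.norm_eq_abs, abs_of_pos Real.pi_pos]
      congr 1
      · norm_num
      · exact Complex.norm_intCast _
    rw [h9] at h8
    refine h8.congr' ?_
    filter_upwards [self_mem_nhdsWithin] with t ht
    have ht' : 0 < t := ht
    rw [zero_add, norm_smul, norm_inv, Real.norm_eq_abs, abs_of_pos ht']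
    have h10 : (fourier (l j) ((0:ℝ) : UnitAddCircle) : ℂ) = 1 := by
      rw [fourier_coe_exp]; simp
    rw [h10]
    field_simp
  exact le_of_tendsto hlim (by
    filter_upwards [self_mem_nhdsWithin] with t ht
    exact hbd t ht)

end Pool.Agent.Lib.MP_459901_an
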