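import Mathlib
import Pool.Agent.Lib.MP_459901_an.Defs
import Pool.Agent.Lib.MP_459901_an.Map
import Pool.Agent.Lib.MP_459901_an.Eop
import Pool.Agent.Lib.MP_459901_an.Koop

/-! Matrix elements of the Koopman operator between unit modes. -/

set_option autoImplicit false

open MeasureTheory UnitAddTorus Metric
open scoped ContDiff ComplexConjugate

namespace Pool.Agent.Lib.MP_459901_an

attribute [local instance] msCircle ahmCircle pmCircle

/-- the function `e_{01} ∘ shear⁻¹` -/
noncomputable def uf : C(T2, ℂ) := (mFourier (v 0 1)).comp ⟨shear.symm, shear.symm.continuous⟩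

lemma uf_apply (p : T2) : uf p = fourier 1 (p 1) * conj (fourier 1 (hc (p 0)) : ℂ) := by
  show (mFourier (v 0 1) (shear.symm p) : ℂ) = _
  rw [mFourier_apply]
  show (fourier 0 (p 0) : ℂ) * fourier 1 (p 1 - hc (p 0)) = _
  rw [fourier_zero, one_mul, sub_eq_add_neg, fourier_add_arg, fourier_neg_arg]

/-- relation satisfied by `uf` -/
lemma uf_rel : (2:ℂ) • uf - mFourier (v (-1) 0) * uf = (2:ℂ) • mFourier (v 0 1) - mFourier (v 1 1) := by
  ext p
  have h := congrArg conj (key_b (p 0))
  simp only [map_mul, map_sub, Complex.conj_conj] at h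
  have h2 : conj (2:ℂ) = 2 := Complex.conj_ofNat 2
  rw [h2] at h
  simp only [ContinuousMap.sub_apply, ContinuousMap.smul_apply, ContinuousMap.mul_apply, smul_eq_mul]
  rw [uf_apply, mFourier_apply, mFourier_apply, mFourier_apply]
  simp only [v_zero, v_one]
  rw [fourier_zero, fourier_zero, fourier_neg]
  linear_combination (fourier 1 (p 1) : ℂ) * h

/-- the vector `B⁻¹ e_{01}` -/
lemma KBi_e01 : KBi (e (v 0 1)) = ContinuousMap.toLp 2 vol ℂ uf := koop_toLp _ _ _

/-- its Fourier coefficients -/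
noncomputable def uhat (p : Fin 2 → ℤ) : ℂ := inner ℂ (e p) (KBi (e (v 0 1)))

lemma norm_uhat_le (p : Fin 2 → ℤ) : ‖uhat p‖ ≤ 1 := by
  have := norm_inner_le_norm (𝕜 := ℂ) (e p) (KBi (e (v 0 1)))
  rwa [norm_e, KBi.norm_map, norm_e, one_mul] at this

lemma inner_mul_shift (p : Fin 2 → ℤ) (f : C(T2, ℂ)) :
    (inner ℂ (e p) (ContinuousMap.toLp 2 vol ℂ (mFourier (v (-1) 0) * f)) : ℂ) =
      inner ℂ (e (p + v 1 0)) (ContinuousMap.toLp 2 vol ℂ f) := by
  show (inner ℂ (ContinuousMap.toLp 2 vol ℂ (mFourier p)) _ : ℂ) =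
    inner ℂ (ContinuousMap.toLp 2 vol ℂ (mFourier (p + v 1 0))) _
  rw [ContinuousMap.inner_toLp, ContinuousMap.inner_toLp]
  congr 1
  funext x
  rw [mFourier_add, ContinuousMap.mul_apply, map_mul]
  have h1 : conj (mFourier (v 1 0) x : ℂ) = mFourier (v (-1) 0) x := by
    rw [← mFourier_neg]
    congr 2
    apply v_ext <;> simp
  rw [h1]
  ring

lemma uhat_rel (p : Fin 2 → ℤ) : 2 * uhat p - uhat (p + v 1 0) =
    2 * (if p = v 0 1 then (1:ℂ) else 0) - (if p = v 1 1 then (1:ℂ) else 0) := by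
  have h := congrArg (fun f : C(T2, ℂ) => (inner ℂ (e p) (ContinuousMap.toLp 2 vol ℂ f) : ℂ)) uf_rel
  simp only [map_sub, map_smul, inner_sub_right, inner_smul_right] at h
  rw [inner_mul_shift, ← KBi_e01] at h
  rw [uhat, uhat, h, ← inner_e_e, ← inner_e_e]

lemma uhat_step {p : Fin 2 → ℤ} (h1 : p ≠ v 0 1) (h2 : p ≠ v 1 1) :
    uhat p = 1 / 2 * uhat (p + v 1 0) := by
  have := uhat_rel p
  rw [if_neg h1, if_neg h2] at this
  linear_combination (1 / 2) * this

lemma uhat_zero {p : Fin 2 → ℤ} (h : p 1 ≠ 1 ∨ 2 ≤ p 0) : uhat p = 0 := by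
  have h1 : ∀ m : ℕ, uhat p = (1 / 2) ^ m * uhat (p + v m 0) := by
    intro m
    induction m with
    | zero =>
      have : p + v ((0:ℕ):ℤ) 0 = p := by apply v_ext <;> simp
      rw [this]; simp
    | succ m ih =>
      rw [ih, uhat_step (p := p + v m 0)]
      · have : p + v m 0 + v 1 0 = p + v ((m + 1 : ℕ) : ℤ) 0 := by
          apply v_ext
          · simp; ring
          · simp
        rw [this, pow_succ]
        ring
      · intro h3
        have e0 := congrFun h3 0
        have e1 := congrFun h3 1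
        simp at e0 e1
        rcases h with h | h
        · exact h e1
        · omega
      · intro h3
        have e0 := congrFun h3 0
        have e1 := congrFun h3 1
        simp at e0 e1
        rcases h with h | h
        · exact h e1
        · omega
  have h2 : ∀ m : ℕ, ‖uhat p‖ ≤ (1 / 2 : ℝ) ^ m := by
    intro m
    rw [h1 m, norm_mul, norm_pow]
    have h3 := norm_uhat_le (p + v m 0)
    have h4 : ‖(1 / 2 : ℂ)‖ = 1 / 2 := by norm_num
    rw [h4]
    calc (1 / 2 : ℝ) ^ m * ‖uhat (p + v m 0)‖ ≤ (1 / 2 : ℝ) ^ m * 1 := by gcongr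
      _ = _ := mul_one _
  have h3 : Filter.Tendsto (fun m : ℕ => (1 / 2 : ℝ) ^ m) Filter.atTop (nhds 0) :=
    tendsto_pow_atTop_nhds_zero_of_lt_one (by norm_num) (by norm_num)
  have h4 : ‖uhat p‖ ≤ 0 := ge_of_tendsto' h3 h2
  exact norm_le_zero_iff.mp h4

lemma uhat_11 : uhat (v 1 1) = -(1 / 2) := by
  have h := uhat_rel (v 1 1)
  have h1 : v 1 1 ≠ v 0 1 := fun h => by simpa using congrFun h 0
  rw [if_neg h1, if_pos rfl, uhat_zero (p := v 1 1 + v 1 0) (by right; simp)] at h
  linear_combination (1 / 2) * h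

lemma uhat_01 : uhat (v 0 1) = 3 / 4 := by
  have h := uhat_rel (v 0 1)
  have h1 : v 0 1 ≠ v 1 1 := fun h => by simpa using congrFun h 0
  have h2 : v 0 1 + v 1 0 = v 1 1 := by apply v_ext <;> simp
  rw [if_neg h1, if_pos rfl, h2, uhat_11] at h
  linear_combination (1 / 2) * h

/-- complex conjugation symmetry -/
lemma inner_neg_of (φ : T2 ≃ₜ T2) (hφ : MeasurePreserving φ vol vol) (k l : Fin 2 → ℤ) :
    (inner ℂ (e (-l)) (koop φ hφ (e (-k))) : ℂ) = conj (inner ℂ (e l) (koop φ hφ (e k)) : ℂ) := by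
  show (inner ℂ (ContinuousMap.toLp 2 vol ℂ (mFourier (-l)))
    (koop φ hφ (ContinuousMap.toLp 2 vol ℂ (mFourier (-k)))) : ℂ) =
    conj (inner ℂ (ContinuousMap.toLp 2 vol ℂ (mFourier l))
      (koop φ hφ (ContinuousMap.toLp 2 vol ℂ (mFourier k))) : ℂ)
  rw [koop_toLp, koop_toLp, ContinuousMap.inner_toLp, ContinuousMap.inner_toLp, ← integral_conj]
  congr 1
  funext x
  simp only [ContinuousMap.comp_apply, ContinuousMap.coe_mk, map_mul, mFourier_neg]

lemma inner_U (l k : Fin 2 → ℤ) :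
    (inner ℂ (e l) (U (e k)) : ℂ) = inner ℂ (KBi (e l)) (KC (KBi (e k))) := by
  rw [U_eq]
  nth_rewrite 1 [← KB_KBi (e l)]
  rw [KB.inner_map_map]

lemma inner_KC (p : Fin 2 → ℤ) (f : L2) : (inner ℂ (e p) (KC f) : ℂ) = inner ℂ (e (Aki p)) f := by
  nth_rewrite 1 [← Ak_Aki p]
  rw [← KC_e, KC.inner_map_map]

/-- expansion of matrix elements -/
lemma inner_U_tsum (l k : Fin 2 → ℤ) :
    HasSum (fun p => (inner ℂ (KBi (e l)) (e p) : ℂ) * inner ℂ (e (Aki p)) (KBi (e k)))
      (inner ℂ (e l) (U (e k)) : ℂ) := by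
  rw [inner_U]
  have h := mFourierBasis.hasSum_inner_mul_inner (KBi (e l)) (KC (KBi (e k)))
  rw [coe_mFourierBasis] at h
  simpa only [inner_KC] using h

/-- `KBi e_{0,-1}` coefficients -/
lemma uhat_neg (p : Fin 2 → ℤ) : (inner ℂ (e p) (KBi (e (v 0 (-1)))) : ℂ) = conj (uhat (-p)) := by
  have h := inner_neg_of shear.symm mp_shear_symm (v 0 1) (-p)
  rw [neg_neg] at h
  have h1 : -(v 0 1) = v 0 (-1) := by apply v_ext <;> simp
  rw [h1] at h
  exact h

/-! matrix elements with `k = (0,1)` -/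

lemma m_10 : (inner ℂ (e (v 1 0)) (U (e (v 0 1))) : ℂ) = 0 := by
  rw [inner_U, KBi_e_of (k := v 1 0) rfl, inner_KC]
  exact uhat_zero (by left; simp [Aki])

lemma m_01 : (inner ℂ (e (v 0 1)) (U (e (v 0 1))) : ℂ) = -(3 / 8) := by
  have h := inner_U_tsum (v 0 1) (v 0 1)
  have h2 := hasSum_single (f := fun p => (inner ℂ (KBi (e (v 0 1))) (e p) : ℂ) *
    inner ℂ (e (Aki p)) (KBi (e (v 0 1)))) (v 1 1) (by
      intro p hp
      by_cases h1 : p 1 = 1 ∧ p 0 < 2
      · have h3 : uhat (Aki p) = 0 := by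
          apply uhat_zero
          by_contra h4
          push Not at h4
          simp only [Aki, v_zero, v_one] at h4
          apply hp
          apply v_ext
          · simp; omega
          · simp; omega
        show (inner ℂ (KBi (e (v 0 1))) (e p) : ℂ) * uhat (Aki p) = 0
        rw [h3, mul_zero]
      · have h3 : uhat p = 0 := by
          apply uhat_zero
          by_cases h4 : p 1 = 1
          · right
            by_contra h5
            exact h1 ⟨h4, by omega⟩
          · exact Or.inl h4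
        have h4 : (inner ℂ (KBi (e (v 0 1))) (e p) : ℂ) = 0 := by
          rw [← inner_conj_symm]
          show conj (uhat p) = 0
          rw [h3, map_zero]
        rw [h4, zero_mul])
  rw [h.unique h2]
  have h3 : (inner ℂ (KBi (e (v 0 1))) (e (v 1 1)) : ℂ) = conj (uhat (v 1 1)) :=
    (inner_conj_symm _ _).symm
  have h4 : Aki (v 1 1) = v 0 1 := by apply v_ext <;> simp [Aki]
  show (inner ℂ (KBi (e (v 0 1))) (e (v 1 1)) : ℂ) * uhat (Aki (v 1 1)) = _
  rw [h3, h4, uhat_11, uhat_01, map_neg, map_div₀, map_one, Complex.conj_ofNat]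
  norm_num

lemma m_0n1 : (inner ℂ (e (v 0 (-1))) (U (e (v 0 1))) : ℂ) = 0 := by
  have h := inner_U_tsum (v 0 (-1)) (v 0 1)
  have h2 : ∀ p : Fin 2 → ℤ, (inner ℂ (KBi (e (v 0 (-1)))) (e p) : ℂ) *
      inner ℂ (e (Aki p)) (KBi (e (v 0 1))) = 0 := by
    intro p
    by_cases h1 : p 1 = -1 ∧ -2 < p 0
    · have h3 : uhat (Aki p) = 0 := by
        apply uhat_zero
        left
        simp only [Aki, v_one]
        omega
      show (inner ℂ (KBi (e (v 0 (-1)))) (e p) : ℂ) * uhat (Aki p) = 0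
      rw [h3, mul_zero]
    · have h3 : uhat (-p) = 0 := by
        apply uhat_zero
        simp only [Pi.neg_apply]
        by_contra h4
        push Not at h4
        exact h1 ⟨by omega, by omega⟩
      have h4 : (inner ℂ (KBi (e (v 0 (-1)))) (e p) : ℂ) = 0 := by
        rw [← inner_conj_symm, uhat_neg, h3]
        simp
      rw [h4, zero_mul]
  simp only [h2] at h
  exact h.unique hasSum_zero

/-! matrix elements with `k = (-1,0)` -/

lemma U_n10 (l : Fin 2 → ℤ) (hl : nsq l = 1) : (inner ℂ (e l) (U (e (v (-1) 0))) : ℂ) = 0 := by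
  rw [inner_U, KBi_e_of (k := v (-1) 0) rfl, KC_e]
  have hA : Ak (v (-1) 0) = v (-2) (-1) := by apply v_ext <;> simp [Ak]
  rw [hA, ← inner_conj_symm]
  have key : (inner ℂ (e (v (-2) (-1))) (KBi (e l)) : ℂ) = 0 := by
    unfold nsq at hl
    by_cases h1 : l 1 = 0
    · rw [KBi_e_of h1, inner_e_e, if_neg]
      intro h2
      rw [← h2] at h1
      simp at h1
    · have h0 : l 0 = 0 := by
        have : 0 < (l 1).natAbs ^ 2 := by positivity
        have : (l 0).natAbs ^ 2 = 0 := by omega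
        simpa using this
      have h2 : (l 1).natAbs ^ 2 = 1 := by
        rw [h0] at hl
        simpa using hl
      have h3 : l 1 = 1 ∨ l 1 = -1 := by
        have : (l 1).natAbs = 1 := by
          rcases Nat.pow_eq_one.mp h2 with h | h
          · exact h
          · omega
        omega
      rcases h3 with h3 | h3
      · have : l = v 0 1 := v_ext h0 h3
        rw [this]
        exact uhat_zero (by left; simp)
      · have : l = v 0 (-1) := v_ext h0 h3
        rw [this, uhat_neg, uhat_zero (by right; simp)]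
        simp
  rw [key, map_zero]

end Pool.Agent.Lib.MP_459901_an
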