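import Mathlib
import Pool.Agent.Lib.MP_459901_an.Defs
import Pool.Agent.Lib.MP_459901_an.Map
import Pool.Agent.Lib.MP_459901_an.Eop
import Pool.Agent.Lib.MP_459901_an.Koop
import Pool.Agent.Lib.MP_459901_an.Lip

/-! Exponential mixing. -/

set_option autoImplicit false

open MeasureTheory UnitAddTorus Metric Filter Topology
open scoped ContDiff ComplexConjugate

namespace Pool.Agent.Lib.MP_459901_an

attribute [local instance] msCircle ahmCircle pmCircle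

lemma cs_tsum {ι : Type*} {a b : ι → ℝ} (ha : ∀ i, 0 ≤ a i) (hb : ∀ i, 0 ≤ b i) {A B : ℝ}
    (hA : ∀ s : Finset ι, ∑ i ∈ s, a i ^ 2 ≤ A ^ 2) (hB : ∀ s : Finset ι, ∑ i ∈ s, b i ^ 2 ≤ B ^ 2)
    (hA0 : 0 ≤ A) (hB0 : 0 ≤ B) :
    Summable (fun i => a i * b i) ∧ ∑' i, a i * b i ≤ A * B := by
  have h1 : ∀ s : Finset ι, ∑ i ∈ s, a i * b i ≤ A * B := by
    intro s
    have h2 := Finset.sum_mul_sq_le_sq_mul_sq s a b
    have h3 : (∑ i ∈ s, a i * b i) ^ 2 ≤ (A * B) ^ 2 := by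
      refine h2.trans ?_
      rw [mul_pow]
      exact mul_le_mul (hA s) (hB s) (Finset.sum_nonneg fun i _ => sq_nonneg _) (sq_nonneg _)
    exact abs_le_of_sq_le_sq' h3 (by positivity) |>.2
  have h2 : Summable (fun i => a i * b i) :=
    summable_of_sum_le (fun i => mul_nonneg (ha i) (hb i)) h1
  exact ⟨h2, h2.tsum_le_of_sum_le h1⟩

lemma summable_inv_one_add_sq : Summable fun n : ℤ => 1 / (1 + (n:ℝ) ^ 2) := by
  have h : Summable fun n : ℕ => 1 / (1 + (n:ℝ) ^ 2) := by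
    rw [← summable_nat_add_iff 1]
    have h1 : Summable fun n : ℕ => 1 / ((n + 1 : ℕ) : ℝ) ^ 2 :=
      (summable_nat_add_iff 1).mpr (Real.summable_one_div_nat_pow.mpr (by norm_num))
    refine Summable.of_nonneg_of_le (fun n => by positivity) (fun n => ?_) h1
    apply one_div_le_one_div_of_le
    · positivity
    · linarith
  apply Summable.of_nat_of_neg
  · simpa using h
  · simpa using h

lemma summable_two : Summable fun k : Fin 2 → ℤ =>
    3 * (1 / (1 + (k 0 : ℝ) ^ 2) * (1 / (1 + (k 1 : ℝ) ^ 2))) := by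
  have hs := summable_inv_one_add_sq
  have h2 : Summable fun p : ℤ × ℤ => 1 / (1 + (p.1:ℝ) ^ 2) * (1 / (1 + (p.2:ℝ) ^ 2)) :=
    hs.mul_of_nonneg hs (fun _ => by positivity) (fun _ => by positivity)
  have h3 := ((finTwoArrowEquiv ℤ).summable_iff (f := fun p : ℤ × ℤ =>
    1 / (1 + (p.1:ℝ) ^ 2) * (1 / (1 + (p.2:ℝ) ^ 2)))).mpr h2
  exact Summable.mul_left 3 h3

lemma lam_nonneg (k : Fin 2 → ℤ) : 0 ≤ lam k := by unfold lam; positivity

lemma nsq_cast (k : Fin 2 → ℤ) : (nsq k : ℝ) = (k 0 : ℝ) ^ 2 + (k 1 : ℝ) ^ 2 := by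
  unfold nsq
  push_cast
  simp [sq_abs]

lemma nsq_ge_one {k : Fin 2 → ℤ} (hk : k ≠ 0) : (1:ℝ) ≤ nsq k := by
  exact_mod_cast nsq_pos hk

lemma b_sq_le (k : Fin 2 → ℤ) : (w1 k / √(lam k ^ (3:ℝ))) ^ 2 ≤
    3 * (1 / (1 + (k 0 : ℝ) ^ 2) * (1 / (1 + (k 1 : ℝ) ^ 2))) := by
  by_cases hk : k = 0
  · subst hk
    have : w1 0 = 0 := by simp [w1]
    rw [this]
    simp
  have h1 := nsq_ge_one hk
  have hlam : lam k = 4 * Real.pi ^ 2 * nsq k := lam_eq k
  have h36 : 36 ≤ 4 * Real.pi ^ 2 := by nlinarith [Real.pi_gt_three]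
  have hl : (nsq k : ℝ) ≤ lam k := by rw [hlam]; nlinarith
  have hl2 : 2 * (nsq k : ℝ) ≤ lam k := by rw [hlam]; nlinarith
  rw [div_pow, Real.sq_sqrt (Real.rpow_nonneg (lam_nonneg k) _)]
  have h3 : lam k ^ (3:ℝ) = lam k ^ 3 := by
    rw [← Real.rpow_natCast]; norm_num
  rw [h3]
  have hw : w1 k ^ 2 ≤ 2 * nsq k := by
    unfold w1
    rw [nsq_cast, ← sq_abs (k 0 : ℝ), ← sq_abs (k 1 : ℝ)]
    nlinarith [sq_nonneg (|(k 0 : ℝ)| - |(k 1 : ℝ)|)]
  have hpos : 0 < lam k := by linarith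
  have h4 : w1 k ^ 2 / lam k ^ 3 ≤ 1 / (nsq k : ℝ) ^ 2 := by
    rw [div_le_div_iff₀ (by positivity) (by positivity), one_mul]
    calc w1 k ^ 2 * (nsq k : ℝ) ^ 2 ≤ lam k * lam k ^ 2 := by
          have : w1 k ^ 2 ≤ lam k := hw.trans hl2
          gcongr
      _ = lam k ^ 3 := by ring
  refine h4.trans ?_
  have h5 : (1 + (k 0 : ℝ) ^ 2) * (1 + (k 1 : ℝ) ^ 2) ≤ 3 * (nsq k : ℝ) ^ 2 := by
    have := nsq_cast k
    nlinarith [sq_nonneg ((k 0 : ℝ) ^ 2 - (k 1 : ℝ) ^ 2), sq_nonneg (k 0 : ℝ), sq_nonneg (k 1 : ℝ)]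
  rw [one_div_mul_one_div, mul_one_div, div_le_div_iff₀ (by positivity) (by positivity)]
  linarith

lemma hnorm_nonneg (s : ℝ) (f : L2) : 0 ≤ hnorm s f := Real.sqrt_nonneg _

/-- absolute convergence of the weighted Fourier series for `f ∈ Ḣ³` -/
lemma S_bound : ∃ C : ℝ, 0 < C ∧ ∀ f : L2, MemHdot 3 f →
    Summable (fun k => ‖(inner ℂ (e k) f : ℂ)‖ * w1 k) ∧
      ∑' k, ‖(inner ℂ (e k) f : ℂ)‖ * w1 k ≤ C * hnorm 3 f := by
  set Q := ∑' k : Fin 2 → ℤ, 3 * (1 / (1 + (k 0 : ℝ) ^ 2) * (1 / (1 + (k 1 : ℝ) ^ 2))) with hQ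
  have hQ0 : 0 ≤ Q := tsum_nonneg fun k => by positivity
  refine ⟨√Q + 1, by positivity, ?_⟩
  rintro f ⟨_, hf⟩
  simp only [← inner_e] at hf
  have hh : hnorm 3 f ^ 2 = ∑' k, lam k ^ (3:ℝ) * ‖(inner ℂ (e k) f : ℂ)‖ ^ 2 := by
    unfold hnorm
    rw [Real.sq_sqrt]
    · simp only [inner_e]
    · exact tsum_nonneg fun k => mul_nonneg (Real.rpow_nonneg (lam_nonneg k) _) (sq_nonneg _)
  have h1 := cs_tsum (a := fun k => √(lam k ^ (3:ℝ)) * ‖(inner ℂ (e k) f : ℂ)‖)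
    (b := fun k => w1 k / √(lam k ^ (3:ℝ))) (A := hnorm 3 f) (B := √Q)
    (fun k => by positivity) (fun k => div_nonneg (w1_nonneg k) (Real.sqrt_nonneg _))
    (by
      intro s
      rw [hh]
      have h2 : ∀ k, (√(lam k ^ (3:ℝ)) * ‖(inner ℂ (e k) f : ℂ)‖) ^ 2 =
          lam k ^ (3:ℝ) * ‖(inner ℂ (e k) f : ℂ)‖ ^ 2 := by
        intro k
        rw [mul_pow, Real.sq_sqrt (Real.rpow_nonneg (lam_nonneg k) _)]
      simp only [h2]
      exact hf.sum_le_tsum s (fun k _ => mul_nonneg (Real.rpow_nonneg (lam_nonneg k) _) (sq_nonneg _)))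
    (by
      intro s
      rw [Real.sq_sqrt hQ0]
      refine (Finset.sum_le_sum fun k _ => b_sq_le k).trans ?_
      exact summable_two.sum_le_tsum s (fun k _ => by positivity))
    (hnorm_nonneg 3 f) (Real.sqrt_nonneg _)
  have h3 : (fun k => √(lam k ^ (3:ℝ)) * ‖(inner ℂ (e k) f : ℂ)‖ * (w1 k / √(lam k ^ (3:ℝ)))) =
      fun k => ‖(inner ℂ (e k) f : ℂ)‖ * w1 k := by
    funext k
    by_cases hk : k = 0
    · subst hk
      have : w1 0 = 0 := by simp [w1]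
      rw [this]; simp
    · have h4 : 0 < lam k := by
        have := nsq_ge_one hk
        rw [lam_eq]
        have := Real.pi_pos
        positivity
      have h5 : √(lam k ^ (3:ℝ)) ≠ 0 := (Real.sqrt_pos.mpr (Real.rpow_pos_of_pos h4 _)).ne'
      field_simp
  rw [h3] at h1
  refine ⟨h1.1, h1.2.trans ?_⟩
  nlinarith [hnorm_nonneg 3 f, Real.sqrt_nonneg Q]

/-- Sobolev `H¹` control of `f ∘ shear⁻¹` -/
lemma N_bound {f : L2} (hf : Summable (fun k => ‖(inner ℂ (e k) f : ℂ)‖ * w1 k))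
    (s : Finset (Fin 2 → ℤ)) :
    ∑ l ∈ s, (nsq l : ℝ) * ‖(inner ℂ (e l) (KBi f) : ℂ)‖ ^ 2 ≤
      32 * (∑' k, ‖(inner ℂ (e k) f : ℂ)‖ * w1 k) ^ 2 := by
  set Sf := ∑' k, ‖(inner ℂ (e k) f : ℂ)‖ * w1 k with hS
  have hpi := Real.pi_pos
  have h0 := weight_bound (fun t => koop (trX t) (mp_trX t)) 0 koop_trX_e (K := 8 * Real.pi * Sf)
    (KBi f) (by
      intro t ht
      have := diff_general (koop (trX t) (mp_trX t)) (K := 8 * Real.pi * |t|) (diffX_e t) hf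
      rw [abs_of_pos ht] at this
      calc _ ≤ _ := this
        _ = _ := by rw [← hS]; ring) s
  have h1 := weight_bound (fun t => koop (trY t) (mp_trY t)) 1 koop_trY_e (K := 8 * Real.pi * Sf)
    (KBi f) (by
      intro t ht
      have := diff_general (koop (trY t) (mp_trY t)) (K := 8 * Real.pi * |t|) (diffY_e t) hf
      rw [abs_of_pos ht] at this
      calc _ ≤ _ := this
        _ = _ := by rw [← hS]; ring) s
  have e0 : ∑ l ∈ s, (2 * Real.pi * |(l 0 : ℝ)|) ^ 2 * ‖(inner ℂ (e l) (KBi f) : ℂ)‖ ^ 2 =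
      4 * Real.pi ^ 2 * ∑ l ∈ s, (l 0 : ℝ) ^ 2 * ‖(inner ℂ (e l) (KBi f) : ℂ)‖ ^ 2 := by
    rw [Finset.mul_sum]
    apply Finset.sum_congr rfl
    intro l _
    rw [mul_pow, sq_abs]; ring
  have e1 : ∑ l ∈ s, (2 * Real.pi * |(l 1 : ℝ)|) ^ 2 * ‖(inner ℂ (e l) (KBi f) : ℂ)‖ ^ 2 =
      4 * Real.pi ^ 2 * ∑ l ∈ s, (l 1 : ℝ) ^ 2 * ‖(inner ℂ (e l) (KBi f) : ℂ)‖ ^ 2 := by
    rw [Finset.mul_sum]
    apply Finset.sum_congr rfl
    intro l _
    rw [mul_pow, sq_abs]; ring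
  have e2 : ∑ l ∈ s, (nsq l : ℝ) * ‖(inner ℂ (e l) (KBi f) : ℂ)‖ ^ 2 =
      ∑ l ∈ s, (l 0 : ℝ) ^ 2 * ‖(inner ℂ (e l) (KBi f) : ℂ)‖ ^ 2 +
      ∑ l ∈ s, (l 1 : ℝ) ^ 2 * ‖(inner ℂ (e l) (KBi f) : ℂ)‖ ^ 2 := by
    rw [← Finset.sum_add_distrib]
    apply Finset.sum_congr rfl
    intro l _
    rw [nsq_cast]; ring
  rw [e0] at h0
  rw [e1] at h1
  rw [e2]
  have hp2 : 0 < 4 * Real.pi ^ 2 := by positivity
  have r0 : ∑ l ∈ s, (l 0 : ℝ) ^ 2 * ‖(inner ℂ (e l) (KBi f) : ℂ)‖ ^ 2 ≤ 16 * Sf ^ 2 := by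
    have : 4 * Real.pi ^ 2 * ∑ l ∈ s, (l 0 : ℝ) ^ 2 * ‖(inner ℂ (e l) (KBi f) : ℂ)‖ ^ 2 ≤
        4 * Real.pi ^ 2 * (16 * Sf ^ 2) := by
      calc _ ≤ _ := h0
        _ = _ := by ring
    exact le_of_mul_le_mul_left this hp2
  have r1 : ∑ l ∈ s, (l 1 : ℝ) ^ 2 * ‖(inner ℂ (e l) (KBi f) : ℂ)‖ ^ 2 ≤ 16 * Sf ^ 2 := by
    have : 4 * Real.pi ^ 2 * ∑ l ∈ s, (l 1 : ℝ) ^ 2 * ‖(inner ℂ (e l) (KBi f) : ℂ)‖ ^ 2 ≤
        4 * Real.pi ^ 2 * (16 * Sf ^ 2) := by
      calc _ ≤ _ := h1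
        _ = _ := by ring
    exact le_of_mul_le_mul_left this hp2
  linarith

/-! Arithmetic of the cat map. -/

/-- unstable functional -/
noncomputable def lu (k : Fin 2 → ℤ) : ℝ := k 0 + (Real.goldenRatio - 1) * k 1
/-- stable functional -/
noncomputable def ls (k : Fin 2 → ℤ) : ℝ := k 0 - Real.goldenRatio * k 1

lemma lu_Ak (k : Fin 2 → ℤ) : lu (Ak k) = Real.goldenRatio ^ 2 * lu k := by
  unfold lu Ak
  simp only [v_zero, v_one]
  push_cast
  have h := Real.goldenRatio_sq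
  linear_combination (-(k 0 : ℝ) - (Real.goldenRatio) * (k 1 : ℝ)) * h

lemma lu_iter (n : ℕ) (p : Fin 2 → ℤ) :
    lu p = (Real.goldenRatio ^ 2) ^ n * lu (Aki^[n] p) := by
  induction n with
  | zero => simp
  | succ n ih =>
    rw [Function.iterate_succ_apply', ih]
    have h := lu_Ak (Aki (Aki^[n] p))
    rw [Ak_Aki] at h
    rw [h]
    ring

lemma Aki_zero : Aki 0 = 0 := by
  apply v_ext <;> simp [Aki]

lemma Ak_iter_Aki (n : ℕ) (p : Fin 2 → ℤ) : Ak^[n] (Aki^[n] p) = p := by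
  induction n with
  | zero => rfl
  | succ n ih => rw [Function.iterate_succ_apply, Function.iterate_succ_apply', Ak_Aki, ih]

lemma Aki_iter_Ak (n : ℕ) (p : Fin 2 → ℤ) : Aki^[n] (Ak^[n] p) = p := by
  induction n with
  | zero => rfl
  | succ n ih => rw [Function.iterate_succ_apply, Function.iterate_succ_apply', Aki_Ak, ih]

lemma Ak_iter_zero (n : ℕ) : Ak^[n] 0 = 0 := by
  induction n with
  | zero => rfl
  | succ n ih =>
    rw [Function.iterate_succ_apply', ih]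
    apply v_ext <;> simp [Ak]

lemma lu_ls {k : Fin 2 → ℤ} (hk : k ≠ 0) : 1 ≤ (lu k * ls k) ^ 2 := by
  have h := Real.goldenRatio_sq
  have h1 : lu k * ls k = (((k 0) ^ 2 - k 0 * k 1 - (k 1) ^ 2 : ℤ) : ℝ) := by
    unfold lu ls
    push_cast
    linear_combination (-(k 1 : ℝ) ^ 2) * h
  rw [h1]
  have h2 : (k 0) ^ 2 - k 0 * k 1 - (k 1) ^ 2 ≠ 0 := by
    intro h3
    have h4 : lu k * ls k = 0 := by rw [h1, h3]; simp
    by_cases hk1 : k 1 = 0
    · rw [hk1] at h3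
      apply hk
      apply v_ext
      · simpa using h3
      · simpa using hk1
    · have hk1' : (k 1 : ℝ) ≠ 0 := by exact_mod_cast hk1
      rcases mul_eq_zero.mp h4 with h5 | h5
      · unfold lu at h5
        have h6 : Real.goldenRatio = (((k 1 - k 0 : ℤ) : ℚ) / ((k 1 : ℤ) : ℚ) : ℚ) := by
          push_cast
          rw [eq_div_iff hk1']
          linear_combination h5
        exact Real.goldenRatio_irrational ⟨_, h6.symm⟩
      · unfold ls at h5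
        have h6 : Real.goldenRatio = (((k 0 : ℤ) : ℚ) / ((k 1 : ℤ) : ℚ) : ℚ) := by
          push_cast
          rw [eq_div_iff hk1']
          linear_combination -h5
        exact Real.goldenRatio_irrational ⟨_, h6.symm⟩
  have h5 : 1 ≤ ((k 0) ^ 2 - k 0 * k 1 - (k 1) ^ 2) ^ 2 := by
    have : 0 < ((k 0) ^ 2 - k 0 * k 1 - (k 1) ^ 2) ^ 2 := by positivity
    omega
  exact_mod_cast h5

lemma sq_lu_le (k : Fin 2 → ℤ) : lu k ^ 2 ≤ 4 * nsq k := by
  have h1 := Real.one_lt_goldenRatio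
  have h2 := Real.goldenRatio_lt_two
  rw [nsq_cast]
  unfold lu
  set a := (k 0 : ℝ)
  set b := (k 1 : ℝ)
  set g := Real.goldenRatio - 1
  have hg0 : 0 < g := by simp only [g]; linarith
  have hg1 : g < 1 := by simp only [g]; linarith
  have h3 : (a + g * b) ^ 2 ≤ (1 + g ^ 2) * (a ^ 2 + b ^ 2) := by nlinarith [sq_nonneg (g * a - b)]
  have h4 : (1 + g ^ 2) * (a ^ 2 + b ^ 2) ≤ 4 * (a ^ 2 + b ^ 2) := by
    have : 1 + g ^ 2 ≤ 4 := by nlinarith
    gcongr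
  exact h3.trans h4

lemma sq_ls_le (k : Fin 2 → ℤ) : ls k ^ 2 ≤ 4 * nsq k := by
  have h1 := Real.one_lt_goldenRatio
  have h2 := Real.goldenRatio_lt_two
  have h := Real.goldenRatio_sq
  rw [nsq_cast]
  unfold ls
  set a := (k 0 : ℝ)
  set b := (k 1 : ℝ)
  set g := Real.goldenRatio
  have h3 : (a - g * b) ^ 2 ≤ (1 + g ^ 2) * (a ^ 2 + b ^ 2) := by nlinarith [sq_nonneg (g * a + b)]
  have h4 : (1 + g ^ 2) * (a ^ 2 + b ^ 2) ≤ 4 * (a ^ 2 + b ^ 2) := by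
    have : 1 + g ^ 2 ≤ 4 := by rw [h]; linarith
    gcongr
  exact h3.trans h4

lemma nsq_mul_ge (n : ℕ) {p : Fin 2 → ℤ} (hp : p ≠ 0) :
    ((Real.goldenRatio ^ 2) ^ n / 4) ^ 2 ≤ (nsq p : ℝ) * nsq (Aki^[n] p) := by
  have hk : Aki^[n] p ≠ 0 := by
    intro h
    apply hp
    rw [← Ak_iter_Aki n p, h, Ak_iter_zero]
  have h1 := lu_ls hk
  have h2 := sq_lu_le p
  have h3 := sq_ls_le (Aki^[n] p)
  have h4 := lu_iter n p
  set G := (Real.goldenRatio ^ 2) ^ n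
  set k := Aki^[n] p
  have h5 : G ^ 2 ≤ 16 * ((nsq p : ℝ) * nsq k) := by
    calc G ^ 2 ≤ G ^ 2 * (lu k * ls k) ^ 2 := le_mul_of_one_le_right (sq_nonneg _) h1
      _ = (lu p) ^ 2 * (ls k) ^ 2 := by rw [h4]; ring
      _ ≤ (4 * nsq p) * (4 * nsq k) := by gcongr
      _ = _ := by ring
  rw [div_pow]
  linarith

/-! The correlation estimate. -/

lemma KC_iter_inner (n : ℕ) (p : Fin 2 → ℤ) (F : L2) :
    (inner ℂ (e p) (KC^[n] F) : ℂ) = inner ℂ (e (Aki^[n] p)) F := by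
  induction n generalizing F with
  | zero => rfl
  | succ n ih =>
    rw [Function.iterate_succ_apply, ih]
    nth_rewrite 1 [← Ak_Aki (Aki^[n] p)]
    rw [← KC_e, KC.inner_map_map, Function.iterate_succ_apply']

lemma U_iter (n : ℕ) (f : L2) : U^[n] f = KB (KC^[n] (KBi f)) := by
  induction n with
  | zero => exact (KB_KBi f).symm
  | succ n ih => rw [Function.iterate_succ_apply', ih, U_eq, KBi_KB, Function.iterate_succ_apply']

lemma koopman_iter (n : ℕ) (f : L2) : koopman phi^[n] (mp_phi.iterate n) f = U^[n] f := by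
  have := Lp.compMeasurePreserving_iterate (E := ℂ) (p := 2) mp_phi n
  exact (congrFun this f).symm

/-- **Exponential mixing.** -/
theorem phi_mixing : ExpMixing phi mp_phi := by
  obtain ⟨C, hC, hS⟩ := S_bound
  have hg1 := Real.one_lt_goldenRatio
  have hgpos := Real.goldenRatio_pos
  have hlog : 0 < Real.log (Real.goldenRatio ^ 2) := by
    apply Real.log_pos
    nlinarith
  refine ⟨3, by norm_num, 3, by norm_num, 4 * (32 * C ^ 2), by positivity,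
    Real.log (Real.goldenRatio ^ 2), hlog, ?_⟩
  intro n f g hf hg
  obtain ⟨hf1, hf2⟩ := hS f hf
  obtain ⟨hg1', hg2⟩ := hS g hg
  rw [koopman_iter, U_iter]
  have h1 : (inner ℂ (KB (KC^[n] (KBi f))) g : ℂ) = inner ℂ (KC^[n] (KBi f)) (KBi g) := by
    nth_rewrite 1 [← KB_KBi g]
    rw [KB.inner_map_map]
  rw [h1]
  set F := KBi f with hF
  set G := KBi g with hG
  set SF := ∑' k, ‖(inner ℂ (e k) f : ℂ)‖ * w1 k with hSF
  set SG := ∑' k, ‖(inner ℂ (e k) g : ℂ)‖ * w1 k with hSG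
  have hSF0 : 0 ≤ SF := tsum_nonneg fun k => mul_nonneg (norm_nonneg _) (w1_nonneg k)
  have hSG0 : 0 ≤ SG := tsum_nonneg fun k => mul_nonneg (norm_nonneg _) (w1_nonneg k)
  set R := (Real.goldenRatio ^ 2) ^ n with hR
  have hRpos : 0 < R := by positivity
  have hcs := cs_tsum (a := fun p => √(nsq (Aki^[n] p)) * ‖(inner ℂ (e (Aki^[n] p)) F : ℂ)‖)
    (b := fun p => √(nsq p) * ‖(inner ℂ (e p) G : ℂ)‖) (A := √32 * SF) (B := √32 * SG)
    (fun p => by positivity) (fun p => by positivity)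
    (by
      intro s
      have hinj : Function.Injective (fun p : Fin 2 → ℤ => Aki^[n] p) :=
        Function.LeftInverse.injective (g := fun p => Ak^[n] p) (fun p => Ak_iter_Aki n p)
      have h2 := N_bound hf1 (s.map ⟨_, hinj⟩)
      rw [Finset.sum_map] at h2
      rw [mul_pow, Real.sq_sqrt (by norm_num)]
      refine le_trans (le_of_eq ?_) h2
      apply Finset.sum_congr rfl
      intro p _
      rw [mul_pow, Real.sq_sqrt (by positivity)]
      rfl)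
    (by
      intro s
      have h2 := N_bound hg1' s
      rw [mul_pow, Real.sq_sqrt (by norm_num)]
      refine le_trans (le_of_eq ?_) h2
      apply Finset.sum_congr rfl
      intro p _
      rw [mul_pow, Real.sq_sqrt (by positivity)])
    (by positivity) (by positivity)
  have h2 := mFourierBasis.hasSum_inner_mul_inner (KC^[n] F) G
  rw [coe_mFourierBasis] at h2
  have h3 : ‖(inner ℂ (KC^[n] F) G : ℂ)‖ ≤ 4 / R * ∑' p, (√(nsq (Aki^[n] p)) *
      ‖(inner ℂ (e (Aki^[n] p)) F : ℂ)‖) * (√(nsq p) * ‖(inner ℂ (e p) G : ℂ)‖) := by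
    rw [← tsum_mul_left]
    refine h2.norm_le_of_bounded (hcs.1.mul_left _).hasSum ?_
    intro p
    rw [norm_mul, norm_inner_symm]
    have e1 : (inner ℂ (mFourierLp 2 p) (KC^[n] F) : ℂ) = inner ℂ (e (Aki^[n] p)) F :=
      KC_iter_inner n p F
    rw [e1]
    by_cases hp : p = 0
    · subst hp
      have e2 : (inner ℂ (e 0) G : ℂ) = 0 := by
        have h4 : KBi (e 0) = e 0 := KBi_e_of rfl
        nth_rewrite 1 [← h4]
        rw [hG, KBi.inner_map_map, inner_e]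
        exact hg.1
      have e3 : (inner ℂ (mFourierLp 2 0) G : ℂ) = 0 := e2
      rw [e3]
      simp
    · have h5 := nsq_mul_ge n hp
      have h6 : R / 4 ≤ √(nsq p) * √(nsq (Aki^[n] p)) := by
        rw [← Real.sqrt_mul (by positivity)]
        exact Real.le_sqrt_of_sq_le h5
      have h7 : 1 ≤ 4 / R * (√(nsq p) * √(nsq (Aki^[n] p))) := by
        rw [div_mul_eq_mul_div, le_div_iff₀ hRpos]
        linarith
      calc ‖(inner ℂ (e (Aki^[n] p)) F : ℂ)‖ * ‖(inner ℂ (mFourierLp 2 p) G : ℂ)‖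
          ≤ (‖(inner ℂ (e (Aki^[n] p)) F : ℂ)‖ * ‖(inner ℂ (mFourierLp 2 p) G : ℂ)‖) *
            (4 / R * (√(nsq p) * √(nsq (Aki^[n] p)))) :=
              le_mul_of_one_le_right (by positivity) h7
        _ = _ := by ring
  have h4 : 4 / R = 4 * Real.exp (-(Real.log (Real.goldenRatio ^ 2) * n)) := by
    rw [Real.exp_neg, mul_comm (Real.log _), Real.exp_nat_mul, Real.exp_log (by positivity)]
    rfl
  have h5 : (√32 * SF) * (√32 * SG) ≤ 32 * ((C * hnorm 3 f) * (C * hnorm 3 g)) := by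
    have e5 : (√32 * SF) * (√32 * SG) = 32 * (SF * SG) := by
      have : √32 * √32 = 32 := Real.mul_self_sqrt (by norm_num)
      linear_combination (SF * SG) * this
    rw [e5]
    have := hnorm_nonneg 3 f
    gcongr
  calc ‖(inner ℂ (KC^[n] F) G : ℂ)‖ ≤ _ := h3
    _ ≤ 4 / R * (32 * ((C * hnorm 3 f) * (C * hnorm 3 g))) := by
        gcongr
        exact hcs.2.trans h5
    _ = _ := by rw [h4]; ring

end Pool.Agent.Lib.MP_459901_an
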