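import Mathlib

/-! A two-constants estimate: a function analytic and bounded in the disc which is small on a real
segment is small at the origin. -/

set_option autoImplicit false

open Complex Set Metric

namespace Pool.Agent.Lib.MP_459901_an

lemma norm_cosh_le (z : ℂ) : ‖Complex.cosh z‖ ≤ Real.cosh z.re := by
  rw [Complex.cosh, Real.cosh_eq, norm_div]
  have h1 := norm_add_le (Complex.exp z) (Complex.exp (-z))
  rw [Complex.norm_exp, Complex.norm_exp, neg_re] at h1
  have h2 : ‖(2:ℂ)‖ = 2 := by simp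
  rw [h2]
  gcongr

/-- the Moebius map -/
noncomputable def mob (m : ℝ) (w : ℂ) : ℂ := (m - w) / (1 - m * w)

lemma one_sub_mul_ne {m : ℝ} (hm0 : 0 < m) (hm1 : m < 1) {w : ℂ} (hw : ‖w‖ < 1) :
    (1 : ℂ) - m * w ≠ 0 := by
  intro h
  have h1 : (m : ℂ) * w = 1 := (sub_eq_zero.mp h).symm
  have h2 := congrArg norm h1
  rw [norm_mul, Complex.norm_real, Real.norm_eq_abs, abs_of_pos hm0, norm_one] at h2
  have := norm_nonneg w
  nlinarith

lemma mob_mem {m : ℝ} (hm0 : 0 < m) (hm1 : m < 1) {w : ℂ} (hw : ‖w‖ < 1) :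
    mob m w ∈ ball (0:ℂ) 1 := by
  have hne := one_sub_mul_ne hm0 hm1 hw
  rw [mem_ball_zero_iff, mob, norm_div, div_lt_one (norm_pos_iff.mpr hne),
    ← sq_lt_sq₀ (norm_nonneg _) (norm_nonneg _), ← Complex.normSq_eq_norm_sq,
    ← Complex.normSq_eq_norm_sq, Complex.normSq_apply, Complex.normSq_apply]
  have h1 : w.re ^ 2 + w.im ^ 2 < 1 := by
    have : ‖w‖ ^ 2 < 1 := by nlinarith [norm_nonneg w]
    rw [← Complex.normSq_eq_norm_sq, Complex.normSq_apply] at this
    nlinarith
  simp only [sub_re, ofReal_re, sub_im, ofReal_im, zero_sub, one_re, mul_re, zero_mul, sub_zero,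
    one_im, mul_im, add_zero]
  have h2 : m ^ 2 < 1 := by nlinarith
  nlinarith [mul_pos (sub_pos.mpr h1) (sub_pos.mpr h2)]

lemma mob_diff {m : ℝ} (hm0 : 0 < m) (hm1 : m < 1) : DifferentiableOn ℂ (mob m) (ball 0 1) := by
  intro w hw
  have hw' : ‖w‖ < 1 := by simpa using hw
  have hne := one_sub_mul_ne hm0 hm1 hw'
  have : DifferentiableAt ℂ (fun w : ℂ => ((m:ℂ) - w) / (1 - m * w)) w := by
    fun_prop (disch := assumption)
  exact this.differentiableWithinAt

lemma mob_lower {m s q w : ℝ} (h : m - s = q) (h0 : 0 < q) (h1 : q < 1) (hm0 : 0 < m) (hm1 : m < 1)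
    (hs : 0 < s) (hw2 : w ≤ s) : q * (1 - m * w) ≤ m - w := by
  have e : m - w - q * (1 - m * w) = (s - w) + q * m * w := by rw [← h]; ring
  rcases le_total 0 w with h2 | h2
  · have : 0 ≤ q * m * w := by positivity
    linarith
  · have h3 : q * m ≤ 1 := by nlinarith
    have h4 : 0 ≤ (-w) * (1 - q * m) := mul_nonneg (by linarith) (by linarith)
    nlinarith

lemma mob_upper {m s w : ℝ} (h : m + s = 1) (hm0 : 0 < m) (hm1 : m < 1) (hw1 : -s ≤ w) :
    (m - w) * (1 + m * s) ≤ 1 * (1 - m * w) := by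
  have hs' : s = 1 - m := by linarith
  have h3 : (m - w) * (1 + m * s) - 1 * (1 - m * w) = -((1 - m ^ 2) * (s + w)) := by
    rw [hs']; ring
  have h5 : 0 ≤ 1 - m ^ 2 := by nlinarith
  have h4 : 0 ≤ (1 - m ^ 2) * (s + w) := mul_nonneg h5 (by linarith)
  linarith

lemma two_constants {q0 : ℝ} (h0 : 0 < q0) (h1 : q0 < 1) :
    ∃ q1 : ℝ, q0 < q1 ∧ q1 < 1 ∧ ∃ x0 : ℝ, 0 < x0 ∧ x0 < 1 ∧ ∀ g : ℂ → ℂ,
      DifferentiableOn ℂ g (ball 0 1) → ∀ M : ℝ, (∀ z ∈ ball (0:ℂ) 1, ‖g z‖ ≤ M) → ∀ δ : ℝ,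
      (∀ q : ℝ, q0 ≤ q → q ≤ q1 → ‖g q‖ ≤ δ) → ‖g 0‖ ≤ M ^ (1 - x0) * δ ^ x0 := by
  set m := (1 + q0) / 2 with hm
  set s := (1 - q0) / 2 with hs
  have hm0 : 0 < m := by positivity
  have hm1 : m < 1 := by rw [hm]; linarith
  have hs0 : 0 < s := by rw [hs]; linarith
  have hms : m + s = 1 := by rw [hm, hs]; ring
  have hmms : m - s = q0 := by rw [hm, hs]; ring
  set R := (1 + m) / 2 with hR
  have hR1 : R < 1 := by rw [hR]; linarith
  have hmR : m < R := by rw [hR]; linarith
  have hRs : 1 < R / s := by rw [one_lt_div hs0]; linarith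
  have hms1 : 1 < m / s := by rw [one_lt_div hs0]; linarith
  set κ := Real.arcosh (R / s) with hκ
  set y0 := Real.arcosh (m / s) with hy0
  have hκc : s * Real.cosh κ = R := by
    rw [hκ, Real.cosh_arcosh hRs.le]; field_simp
  have hy0c : s * Real.cosh y0 = m := by
    rw [hy0, Real.cosh_arcosh hms1.le]; field_simp
  have hκpos : 0 < κ := Real.arcosh_pos hRs
  have hy0pos : 0 < y0 := Real.arcosh_pos hms1
  have hy0κ : y0 < κ := by
    rw [hy0, hκ, Real.arcosh_lt_arcosh (by positivity) (by positivity)]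
    gcongr
  have hq1 : q0 < 1 / (1 + m * s) := by
    rw [lt_div_iff₀ (by positivity)]
    nlinarith [mul_pos hm0 hs0]
  refine ⟨1 / (1 + m * s), hq1, ?_, 1 - y0 / κ, ?_, ?_, ?_⟩
  · rw [div_lt_one (by positivity)]
    nlinarith [mul_pos hm0 hs0]
  · rw [sub_pos, div_lt_one hκpos]; exact hy0κ
  · have : 0 < y0 / κ := by positivity
    linarith
  intro g hg M hM δ hδ
  -- the map from the strip
  set G : ℂ → ℂ := fun z => s * Complex.cosh (κ * (1 - z)) with hG
  have hGn : ∀ z ∈ HadamardThreeLines.verticalClosedStrip 0 1, ‖G z‖ ≤ R := by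
    intro z hz
    have hz' : z.re ∈ Icc (0:ℝ) 1 := hz
    rw [hG]
    simp only
    rw [norm_mul, Complex.norm_real, Real.norm_eq_abs, abs_of_pos hs0, ← hκc]
    gcongr
    refine (norm_cosh_le _).trans ?_
    have : ((κ:ℂ) * (1 - z)).re = κ * (1 - z.re) := by simp
    rw [this, Real.cosh_le_cosh, abs_of_nonneg (mul_nonneg hκpos.le (by linarith [hz'.2])),
      abs_of_pos hκpos]
    nlinarith [hz'.1]
  have hGlt : ∀ z ∈ HadamardThreeLines.verticalClosedStrip 0 1, ‖G z‖ < 1 := fun z hz =>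
    (hGn z hz).trans_lt hR1
  have hGd : Differentiable ℂ G := by
    rw [hG]
    intro z
    have h1 : DifferentiableAt ℂ (fun z : ℂ => (κ:ℂ) * (1 - z)) z := by fun_prop
    exact (h1.ccosh).const_mul _
  set H : ℂ → ℂ := fun z => g (mob m (G z)) with hH
  have hHd : ∀ z ∈ HadamardThreeLines.verticalClosedStrip 0 1, DifferentiableAt ℂ H z := by
    intro z hz
    have hb := hGlt z hz
    have e1 : DifferentiableAt ℂ (mob m) (G z) :=
      (mob_diff hm0 hm1).differentiableAt (isOpen_ball.mem_nhds (by simpa using hb))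
    have e2 : DifferentiableAt ℂ g (mob m (G z)) :=
      hg.differentiableAt (isOpen_ball.mem_nhds (mob_mem hm0 hm1 hb))
    have e3 : DifferentiableAt ℂ (fun z => mob m (G z)) z :=
      DifferentiableAt.comp (g := mob m) (f := G) z e1 (hGd z)
    exact DifferentiableAt.comp (g := g) (f := fun z => mob m (G z)) z e2 e3
  have hHM : ∀ z ∈ HadamardThreeLines.verticalClosedStrip 0 1, ‖H z‖ ≤ M := fun z hz =>
    hM _ (mob_mem hm0 hm1 (hGlt z hz))
  have hx0 : 0 < 1 - y0 / κ := by rw [sub_pos, div_lt_one hκpos]; exact hy0κ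
  have hx1 : 1 - y0 / κ ≤ 1 := by
    have : 0 < y0 / κ := by positivity
    linarith
  have hmem : ((1 - y0 / κ : ℝ) : ℂ) ∈ HadamardThreeLines.verticalClosedStrip 0 1 := by
    show ((1 - y0 / κ : ℝ) : ℂ).re ∈ Icc (0:ℝ) 1
    rw [Complex.ofReal_re]
    exact ⟨hx0.le, hx1⟩
  have main := HadamardThreeLines.norm_le_interp_of_mem_verticalClosedStrip₀₁' H hmem
    (a := M) (b := δ)
    (by
      refine DifferentiableOn.diffContOnCl ?_
      intro z hz
      refine (hHd z ?_).differentiableWithinAt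
      rw [HadamardThreeLines.verticalStrip] at hz
      have h2 := closure_minimal (s := re ⁻¹' Ioo (0:ℝ) 1) (t := re ⁻¹' Icc (0:ℝ) 1)
        (preimage_mono Ioo_subset_Icc_self) (isClosed_Icc.preimage continuous_re) hz
      exact h2)
    (by
      refine ⟨M, ?_⟩
      rintro _ ⟨z, hz, rfl⟩
      exact hHM z hz)
    (by
      intro z hz
      apply hHM
      have hz' : z.re = 0 := hz
      show z.re ∈ Icc (0:ℝ) 1
      rw [hz']
      exact ⟨le_rfl, zero_le_one⟩)
    (by
      intro z hz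
      have hz' : z.re = 1 := hz
      -- `G z` is real in `[-s, s]`
      have e1 : G z = ((s * Real.cos (κ * z.im) : ℝ) : ℂ) := by
        rw [hG]
        simp only
        have : (κ:ℂ) * (1 - z) = ((-(κ * z.im) : ℝ) : ℂ) * I := by
          apply Complex.ext
          · simp [hz']
          · simp
        rw [this, Complex.cosh_mul_I]
        push_cast
        rw [Complex.cos_neg]
      set w := s * Real.cos (κ * z.im) with hw
      have hw1 : -s ≤ w := by rw [hw]; nlinarith [Real.neg_one_le_cos (κ * z.im)]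
      have hw2 : w ≤ s := by rw [hw]; nlinarith [Real.cos_le_one (κ * z.im)]
      have e2 : mob m (G z) = (((m - w) / (1 - m * w) : ℝ) : ℂ) := by
        rw [e1, mob]; push_cast; ring
      rw [hH]
      simp only
      rw [e2]
      have hden : 0 < 1 - m * w := by
        have : m * w ≤ m * s := mul_le_mul_of_nonneg_left hw2 hm0.le
        have : m * s < 1 := by nlinarith only [hm0, hs0, hms, hm1]
        linarith
      apply hδ
      · rw [le_div_iff₀ hden]
        exact mob_lower hmms h0 h1 hm0 hm1 hs0 hw2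
      · rw [div_le_div_iff₀ hden (by positivity)]
        exact mob_upper hms hm0 hm1 hw1)
  rw [Complex.ofReal_re] at main
  have hval : H ((1 - y0 / κ : ℝ) : ℂ) = g 0 := by
    rw [hH]
    simp only
    have e1 : G ((1 - y0 / κ : ℝ) : ℂ) = m := by
      rw [hG]
      simp only
      have : (κ:ℂ) * (1 - ((1 - y0 / κ : ℝ) : ℂ)) = (y0 : ℂ) := by
        push_cast
        have : (κ:ℂ) ≠ 0 := by exact_mod_cast hκpos.ne'
        field_simp
        ring
      rw [this, ← Complex.ofReal_cosh, ← Complex.ofReal_mul, hy0c]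
    rw [e1, mob, sub_self, zero_div]
  rw [hval] at main
  exact main

end Pool.Agent.Lib.MP_459901_an
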