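import Mathlib
import Pool.Agent.Lib.MP_459901_an.Defs
import Pool.Agent.Lib.MP_459901_an.Map
import Pool.Agent.Lib.MP_459901_an.Eop
import Pool.Agent.Lib.MP_459901_an.Koop
import Pool.Agent.Lib.MP_459901_an.Mat
import Pool.Agent.Lib.MP_459901_an.Strip

/-! The decay is not doubly exponential. -/

set_option autoImplicit false

open MeasureTheory UnitAddTorus Metric
open scoped ContDiff ComplexConjugate

namespace Pool.Agent.Lib.MP_459901_an

attribute [local instance] msCircle ahmCircle pmCircle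

lemma coef_zero_of {k : Fin 2 → ℤ} (h : nsq k ≠ 1) : coef 0 k = 0 := by
  unfold coef
  split_ifs with h1
  · rfl
  · have := nsq_pos h1
    exact zero_pow (by omega)

lemma coef_zero_one {k : Fin 2 → ℤ} (h : nsq k = 1) : coef 0 k = 1 := by
  unfold coef
  rw [if_neg]
  · simp [h]
  · intro h1
    rw [h1] at h
    simp [nsq] at h

lemma nsq_cases {k : Fin 2 → ℤ} (h : nsq k = 1) :
    k = v 1 0 ∨ k = v (-1) 0 ∨ k = v 0 1 ∨ k = v 0 (-1) := by
  unfold nsq at h
  have h1 : (k 0).natAbs ≤ (k 0).natAbs ^ 2 := Nat.le_self_pow two_ne_zero _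
  have h2 : (k 1).natAbs ≤ (k 1).natAbs ^ 2 := Nat.le_self_pow two_ne_zero _
  rcases Nat.eq_zero_or_pos (k 1).natAbs with h3 | h3
  · have h4 : k 1 = 0 := Int.natAbs_eq_zero.mp h3
    have h5 : (k 0).natAbs ^ 2 = 1 := by rw [h3] at h; simpa using h
    have h6 : (k 0).natAbs = 1 := by
      rcases Nat.pow_eq_one.mp h5 with h | h
      · exact h
      · omega
    have h7 : k 0 = 1 ∨ k 0 = -1 := by omega
    rcases h7 with h7 | h7
    · left; exact v_ext h7 h4
    · right; left; exact v_ext h7 h4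
  · have h8 : 0 < (k 1).natAbs ^ 2 := by positivity
    have h9 : (k 0).natAbs = 0 := by omega
    have h4 : k 0 = 0 := Int.natAbs_eq_zero.mp h9
    have h6 : (k 1).natAbs = 1 := by omega
    have h7 : k 1 = 1 ∨ k 1 = -1 := by omega
    rcases h7 with h7 | h7
    · right; right; left; exact v_ext h4 h7
    · right; right; right; exact v_ext h4 h7

lemma zero_lt_one' : ‖(0:ℂ)‖ < 1 := by simp

/-- general form of the compression -/
lemma compress {x : L2} {a b : Fin 2 → ℤ} {α β : ℂ} (hab : a ≠ b) (ha : nsq a = 1) (hb : nsq b = 1)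
    (h1 : (inner ℂ (e a) x : ℂ) = α) (h2 : (inner ℂ (e b) x : ℂ) = β)
    (h3 : ∀ k, nsq k = 1 → k ≠ a → k ≠ b → (inner ℂ (e k) x : ℂ) = 0) :
    Eop 0 x = α • e a + β • e b := by
  apply ext_coeff
  intro k
  rw [inner_Eop zero_lt_one', inner_add_right, inner_smul_right, inner_smul_right, inner_e_e,
    inner_e_e]
  by_cases hk : nsq k = 1
  · rw [coef_zero_one hk, one_mul]
    by_cases hka : k = a
    · subst hka
      rw [if_pos rfl, if_neg hab, h1]; ring
    · by_cases hkb : k = b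
      · subst hkb
        rw [if_pos rfl, if_neg hka, h2]; ring
      · rw [if_neg hka, if_neg hkb, h3 k hk hka hkb]; ring
  · have hka : k ≠ a := by rintro rfl; exact hk ha
    have hkb : k ≠ b := by rintro rfl; exact hk hb
    rw [coef_zero_of hk, if_neg hka, if_neg hkb]; ring

lemma v_ne {a b c d : ℤ} (h : a ≠ c ∨ b ≠ d) : v a b ≠ v c d := by
  intro h1
  have e0 := congrFun h1 0
  have e1 := congrFun h1 1
  simp at e0 e1
  tauto

/-- the unspecified matrix element -/
noncomputable def cc : ℂ := inner ℂ (e (v (-1) 0)) (U (e (v 0 1)))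

lemma V_01 : Eop 0 (U (e (v 0 1))) = (-(3 / 8) : ℂ) • e (v 0 1) + cc • e (v (-1) 0) := by
  apply compress (v_ne (by norm_num)) rfl rfl m_01 rfl
  intro k hk h1 h2
  rcases nsq_cases hk with h | h | h | h
  · rw [h, m_10]
  · exact absurd h h2
  · exact absurd h h1
  · rw [h, m_0n1]

lemma neg_v (a b : ℤ) : -(v a b) = v (-a) (-b) := by apply v_ext <;> simp

lemma conj_U (k l : Fin 2 → ℤ) :
    (inner ℂ (e (-l)) (U (e (-k))) : ℂ) = conj (inner ℂ (e l) (U (e k)) : ℂ) :=
  inner_neg_of phi mp_phi k l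

lemma V_0n1 : Eop 0 (U (e (v 0 (-1)))) = (-(3 / 8) : ℂ) • e (v 0 (-1)) + conj cc • e (v 1 0) := by
  apply compress (v_ne (by norm_num)) rfl rfl
  · have := conj_U (v 0 1) (v 0 1)
    rw [neg_v, neg_zero, m_01, map_neg, map_div₀, Complex.conj_ofNat, Complex.conj_ofNat] at this
    exact this
  · have := conj_U (v 0 1) (v (-1) 0)
    rw [neg_v, neg_v, neg_zero, neg_neg] at this
    exact this
  · intro k hk h1 h2
    rcases nsq_cases hk with h | h | h | h
    · exact absurd h h2
    · have := conj_U (v 0 1) (v 1 0)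
      rw [neg_v, neg_v, neg_zero, m_10, map_zero] at this
      rw [h]; exact this
    · have := conj_U (v 0 1) (v 0 (-1))
      rw [neg_v, neg_v, neg_zero, neg_neg, m_0n1, map_zero] at this
      rw [h]; exact this
    · exact absurd h h1

lemma V_n10 : Eop 0 (U (e (v (-1) 0))) = 0 := by
  have h := compress (x := U (e (v (-1) 0))) (a := v 1 0) (b := v 0 1) (α := 0) (β := 0)
    (v_ne (by norm_num)) rfl rfl (U_n10 _ rfl) (U_n10 _ rfl) (fun k hk _ _ => U_n10 k hk)
  rw [h]; simp

lemma U_10 (l : Fin 2 → ℤ) (hl : nsq l = 1) : (inner ℂ (e l) (U (e (v 1 0))) : ℂ) = 0 := by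
  have h := conj_U (v (-1) 0) (-l)
  rw [neg_v, neg_neg, neg_zero, neg_neg, U_n10, map_zero] at h
  · exact h
  · unfold nsq at *
    simpa using hl

lemma V_10 : Eop 0 (U (e (v 1 0))) = 0 := by
  have h := compress (x := U (e (v 1 0))) (a := v 1 0) (b := v 0 1) (α := 0) (β := 0)
    (v_ne (by norm_num)) rfl rfl (U_10 _ rfl) (U_10 _ rfl) (fun k hk _ _ => U_10 k hk)
  rw [h]; simp

/-- the initial datum `2 cos (2 π y)` -/
noncomputable def theta0 : L2 := e (v 0 1) + e (v 0 (-1))

lemma vit_zero (n : ℕ) : ∃ a b : ℂ, vit U theta0 n 0 =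
    (-(3 / 8) : ℂ) ^ n • theta0 + a • e (v (-1) 0) + b • e (v 1 0) := by
  induction n with
  | zero => exact ⟨0, 0, by simp [vit]⟩
  | succ n ih =>
    obtain ⟨a, b, h⟩ := ih
    refine ⟨(-(3 / 8) : ℂ) ^ n * cc, (-(3 / 8) : ℂ) ^ n * conj cc, ?_⟩
    show Eop 0 (U (vit U theta0 n 0)) = _
    rw [h, theta0]
    simp only [map_add, map_smul]
    rw [V_01, V_0n1, V_n10, V_10]
    simp only [smul_zero, add_zero, smul_add, smul_smul, pow_succ]
    abel

lemma norm_theta0_sq : (inner ℂ theta0 theta0 : ℂ) = 2 := by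
  unfold theta0
  rw [inner_add_left, inner_add_right, inner_add_right, inner_e_e, inner_e_e, inner_e_e, inner_e_e]
  have h1 : v 0 1 ≠ v 0 (-1) := v_ne (by norm_num)
  rw [if_pos rfl, if_pos rfl, if_neg h1, if_neg h1.symm]
  norm_num

lemma norm_theta0 : ‖theta0‖ ^ 2 = 2 := by
  have h := norm_theta0_sq
  rw [inner_self_eq_norm_sq_to_K] at h
  have h2 : ((‖theta0‖ ^ 2 : ℝ) : ℂ) = ((2:ℝ) : ℂ) := by
    push_cast
    exact h
  exact_mod_cast h2

lemma inner_theta0 (n : ℕ) : (inner ℂ theta0 (vit U theta0 n 0) : ℂ) = 2 * (-(3 / 8) : ℂ) ^ n := by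
  obtain ⟨a, b, h⟩ := vit_zero n
  rw [h, inner_add_right, inner_add_right, inner_smul_right, inner_smul_right, inner_smul_right,
    norm_theta0_sq]
  have h1 : (inner ℂ theta0 (e (v (-1) 0)) : ℂ) = 0 := by
    unfold theta0
    rw [inner_add_left, inner_e_e, inner_e_e, if_neg (v_ne (by norm_num)),
      if_neg (v_ne (by norm_num)), add_zero]
  have h2 : (inner ℂ theta0 (e (v 1 0)) : ℂ) = 0 := by
    unfold theta0
    rw [inner_add_left, inner_e_e, inner_e_e, if_neg (v_ne (by norm_num)),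
      if_neg (v_ne (by norm_num)), add_zero]
  rw [h1, h2]
  ring

lemma theta0_mean : (inner ℂ (e 0) theta0 : ℂ) = 0 := by
  have h0 : (0 : Fin 2 → ℤ) = v 0 0 := by apply v_ext <;> rfl
  unfold theta0
  rw [inner_add_right, h0, inner_e_e, inner_e_e, if_neg (v_ne (by norm_num)),
    if_neg (v_ne (by norm_num)), add_zero]

lemma growth {γ K L : ℝ} (hγ : 1 < γ) (hK : 0 < K) : ∃ n : ℕ, 1 ≤ n ∧ n * L < K * γ ^ n := by
  have h1 := tendsto_pow_const_div_const_pow_of_one_lt 1 hγ
  have h2 : Filter.Tendsto (fun n : ℕ => (n : ℝ) ^ 1 / γ ^ n * L) Filter.atTop (nhds (0 * L)) :=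
    h1.mul_const L
  rw [zero_mul] at h2
  have h3 := (h2.eventually (gt_mem_nhds hK)).and (Filter.eventually_ge_atTop 1)
  obtain ⟨n, h4, h5⟩ := h3.exists
  refine ⟨n, h5, ?_⟩
  have hpos : 0 < γ ^ n := by positivity
  rw [pow_one, div_mul_eq_mul_div, div_lt_iff₀ hpos] at h4
  exact h4

theorem not_dexp {C γ ν₀ : ℝ} (hC : 0 < C) (hγ : 1 < γ) (hν₀ : 0 < ν₀) :
    ∃ ν : ℝ, 0 < ν ∧ ν ≤ ν₀ ∧ ∃ n : ℕ, 1 ≤ n ∧
      Real.exp (-(ν * γ ^ n / C)) * ‖theta0‖ < ‖(fun θ => heat ν (U θ))^[n] theta0‖ := by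
  by_contra hcon
  push Not at hcon
  have hpi := Real.pi_pos
  set a : ℝ := 4 * Real.pi ^ 2 with ha
  have hapos : 0 < a := by positivity
  set q0 := Real.exp (-(a * ν₀)) with hq0
  have hq0pos : 0 < q0 := Real.exp_pos _
  have hq0lt : q0 < 1 := by
    rw [hq0, Real.exp_lt_one_iff]
    have : 0 < a * ν₀ := by positivity
    linarith
  obtain ⟨q1, hq01, hq1, x0, hx0, hx1, main⟩ := two_constants hq0pos hq0lt
  have hq1pos : 0 < q1 := hq0pos.trans hq01
  set ν₁ := -Real.log q1 / a with hν₁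
  have hν₁pos : 0 < ν₁ := by
    have := Real.log_neg hq1pos hq1
    rw [hν₁]
    exact div_pos (by linarith) hapos
  have key : ∀ n : ℕ, 1 ≤ n → 2 * (3 / 8 : ℝ) ^ n ≤
      2 ^ (1 - x0) * (2 * Real.exp (n * (a * ν₀) - ν₁ * γ ^ n / C)) ^ x0 := by
    intro n hn
    have h1 := main (fun q => inner ℂ theta0 (vit U theta0 n q))
      (by
        have := vit_diff U theta0 n
        exact (innerSL ℂ theta0).differentiable.comp_differentiableOn this) 2
      (by
        intro z hz
        have hz' : ‖z‖ < 1 := by simpa using hz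
        calc ‖(inner ℂ theta0 (vit U theta0 n z) : ℂ)‖ ≤ ‖theta0‖ * ‖vit U theta0 n z‖ :=
              norm_inner_le_norm _ _
          _ ≤ ‖theta0‖ * ‖theta0‖ := by
              gcongr
              exact norm_vit_le U theta0 n hz'
          _ = 2 := by rw [← pow_two, norm_theta0])
      (2 * Real.exp (n * (a * ν₀) - ν₁ * γ ^ n / C))
      (by
        intro q hq0' hq1'
        have hqpos : 0 < q := hq0pos.trans_le hq0'
        set ν := -Real.log q / a with hν
        have hexp : Real.exp (-(a * ν)) = q := by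
          rw [hν]
          have : -(a * (-Real.log q / a)) = Real.log q := by field_simp
          rw [this, Real.exp_log hqpos]
        have hν1 : ν₁ ≤ ν := by
          rw [hν, hν₁]
          have := Real.log_le_log hqpos hq1'
          gcongr
          
        have hν0 : ν ≤ ν₀ := by
          have := Real.log_le_log hq0pos hq0'
          rw [hq0, Real.log_exp] at this
          rw [hν, div_le_iff₀ hapos]
          linarith
        have hνpos : 0 < ν := hν₁pos.trans_le hν1
        have h2 := hcon ν hνpos hν0 n hn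
        have h3 := pulse_iterate U theta0 U_e0 theta0_mean hνpos n
        rw [h3, ← ha, hexp, norm_smul, norm_pow, Complex.norm_real, Real.norm_eq_abs,
          abs_of_pos hqpos] at h2
        have h4 : ‖vit U theta0 n q‖ ≤ Real.exp (n * (a * ν₀) - ν₁ * γ ^ n / C) * ‖theta0‖ := by
          have h5 : 0 < q ^ n := by positivity
          have h6 : ‖vit U theta0 n q‖ ≤ (Real.exp (-(ν * γ ^ n / C)) * ‖theta0‖) / q ^ n := by
            rw [le_div_iff₀ h5]
            linarith
          refine h6.trans ?_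
          rw [mul_div_right_comm]
          gcongr
          rw [div_le_iff₀ h5, ← hexp, ← Real.exp_nat_mul, ← Real.exp_add]
          apply Real.exp_le_exp.mpr
          have h7 : (n:ℝ) * (a * ν) ≤ n * (a * ν₀) := by gcongr
          have h8 : ν₁ * γ ^ n / C ≤ ν * γ ^ n / C := by gcongr
          nlinarith
        calc ‖(inner ℂ theta0 (vit U theta0 n q) : ℂ)‖ ≤ ‖theta0‖ * ‖vit U theta0 n q‖ :=
              norm_inner_le_norm _ _
          _ ≤ ‖theta0‖ * (Real.exp (n * (a * ν₀) - ν₁ * γ ^ n / C) * ‖theta0‖) := by gcongr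
          _ = ‖theta0‖ ^ 2 * Real.exp (n * (a * ν₀) - ν₁ * γ ^ n / C) := by ring
          _ = _ := by rw [norm_theta0])
    rw [inner_theta0] at h1
    have h2 : ‖(2 * (-(3 / 8) : ℂ) ^ n)‖ = 2 * (3 / 8 : ℝ) ^ n := by
      rw [norm_mul, norm_pow]
      norm_num
    rw [h2] at h1
    exact h1
  -- contradiction
  obtain ⟨n, hn, hlt⟩ := growth (γ := γ) (K := x0 * ν₁ / C) (L := x0 * (a * ν₀) - Real.log (3 / 8)) hγ
    (by positivity)
  have h1 := key n hn
  rw [Real.mul_rpow (by norm_num) (Real.exp_pos _).le, ← mul_assoc, ← Real.rpow_add (by norm_num),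
    sub_add_cancel, Real.rpow_one] at h1
  have h2 : (3 / 8 : ℝ) ^ n ≤ Real.exp (n * (a * ν₀) - ν₁ * γ ^ n / C) ^ x0 := by linarith
  rw [← Real.exp_mul] at h2
  have h3 := Real.log_le_log (by positivity) h2
  rw [Real.log_exp, Real.log_pow] at h3
  have h4 : x0 * ν₁ / C * γ ^ n = x0 * (ν₁ * γ ^ n / C) := by ring
  rw [h4] at hlt
  nlinarith

end Pool.Agent.Lib.MP_459901_an
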