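import Mathlib
import Pool.Agent.Lib.MP_459901_an.Torus
import Pool.Agent.Lib.MP_459901_an.Defs
import Pool.Agent.Lib.MP_459901_an.Map
import Pool.Agent.Lib.MP_459901_an.Eop
import Pool.Agent.Lib.MP_459901_an.Koop
import Pool.Agent.Lib.MP_459901_an.Mixing
import Pool.Agent.Lib.MP_459901_an.NonDexp

/-! Transfer from `L²` classes to functions. -/

set_option autoImplicit false

open MeasureTheory UnitAddTorus
open scoped ContDiff ComplexConjugate

namespace Pool.Agent.Lib.MP_459901_an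

attribute [local instance] msCircle ahmCircle pmCircle

/-- `f` represents the class `F` -/
def Rep (f : T2 → ℂ) (F : L2) : Prop := f =ᵐ[vol] F

lemma Rep.coeff {f : T2 → ℂ} {F : L2} (h : Rep f F) (k : Fin 2 → ℤ) :
    mFourierCoeff f k = mFourierCoeff F k := by
  apply integral_congr_ae
  filter_upwards [h] with x hx
  rw [hx]

lemma Rep.norm {f : T2 → ℂ} {F : L2} (h : Rep f F) : l2norm f = ‖F‖ := by
  unfold l2norm
  have h1 : ∫ x, ‖f x‖ ^ 2 ∂vol = ∫ x, ‖F x‖ ^ 2 ∂vol := by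
    apply integral_congr_ae
    filter_upwards [h] with x hx
    rw [hx]
  have h2 : ∫ t, ‖F t‖ ^ 2 ∂vol = ‖F‖ ^ 2 := by
    rw [← inner_self_eq_norm_sq (𝕜 := ℂ), L2.inner_def]
    rw [← integral_re (L2.integrable_inner F F)]
    congr 1
    ext t
    rw [inner_self_eq_norm_sq]
  rw [h1, h2, Real.sqrt_sq (norm_nonneg _)]

lemma Rep.comp {f : T2 → ℂ} {F : L2} (h : Rep f F) (φ : T2 → T2)
    (hφ : MeasurePreserving φ vol vol) : Rep (f ∘ φ) (koop φ hφ F) := by
  have h1 : (koop φ hφ F : T2 → ℂ) =ᵐ[vol] (F : T2 → ℂ) ∘ φ := Lp.coeFn_compMeasurePreserving _ hφ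
  have h2 : f ∘ φ =ᵐ[vol] (F : T2 → ℂ) ∘ φ := hφ.quasiMeasurePreserving.ae_eq_comp h
  exact h2.trans h1.symm

lemma Rep.heat {f : T2 → ℂ} {F : L2} (h : Rep f F) {ν : ℝ} (hν : 0 < ν) :
    Rep (heatFlow ν f) (heat ν F) := by
  set c : (Fin 2 → ℤ) → ℂ := fun k => (Real.exp (-(ν * lam k)) : ℂ) * mFourierCoeff f k with hc
  have hr1 : Real.exp (-(4 * Real.pi ^ 2 * ν)) < 1 := by
    rw [Real.exp_lt_one_iff]
    have := Real.pi_pos
    have : 0 < 4 * Real.pi ^ 2 * ν := by positivity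
    linarith
  have hsum : Summable c := by
    have h1 := summable_pow (Real.exp_pos (-(4 * Real.pi ^ 2 * ν))) hr1
    refine Summable.of_norm_bounded (h1.mul_right ‖F‖) ?_
    intro k
    rw [hc]
    simp only
    rw [norm_mul, h.coeff, ← inner_e]
    have h2 : ‖(inner ℂ (e k) F : ℂ)‖ ≤ ‖F‖ := by
      have := norm_inner_le_norm (𝕜 := ℂ) (e k) F
      rwa [norm_e, one_mul] at this
    have h3 : ‖(Real.exp (-(ν * lam k)) : ℂ)‖ ≤ Real.exp (-(4 * Real.pi ^ 2 * ν)) ^ (nsq k - 1) := by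
      rw [Complex.norm_real, Real.norm_eq_abs, abs_of_pos (Real.exp_pos _), ← Real.exp_nat_mul]
      apply Real.exp_le_exp.mpr
      rw [lam_eq]
      have h4 : ((nsq k - 1 : ℕ) : ℝ) ≤ nsq k := by
        exact_mod_cast Nat.sub_le _ _
      have := Real.pi_pos
      have h5 : 0 ≤ 4 * Real.pi ^ 2 * ν := by positivity
      nlinarith
    gcongr
  have hsC : Summable fun k => c k • (mFourier k : C(T2, ℂ)) := by
    refine Summable.of_norm_bounded hsum.norm ?_
    intro k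
    rw [norm_smul, mFourier_norm, mul_one]
  set S : C(T2, ℂ) := ∑' k, c k • (mFourier k : C(T2, ℂ)) with hS
  have hev : ∀ x, heatFlow ν f x = S x := by
    intro x
    have h1 := (ContinuousMap.evalCLM ℂ x).hasSum hsC.hasSum
    have h2 : HasSum (fun k => c k * mFourier k x) (S x) := h1
    exact h2.tsum_eq
  have hLp : Pool.Agent.Lib.MP_459901_an.heat ν F = ContinuousMap.toLp 2 vol ℂ S := by
    have h1 := (ContinuousMap.toLp 2 vol ℂ : C(T2, ℂ) →L[ℂ] L2).hasSum hsC.hasSum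
    have h2 : HasSum (fun k => c k • mFourierLp 2 k) (ContinuousMap.toLp 2 vol ℂ S : L2) := by
      simpa only [map_smul] using h1
    unfold Pool.Agent.Lib.MP_459901_an.heat
    rw [← h2.tsum_eq]
    congr 1
    funext k
    rw [hc]
    simp only
    rw [h.coeff]
  have h3 : (ContinuousMap.toLp 2 vol ℂ S : T2 → ℂ) =ᵐ[vol] S := ContinuousMap.coeFn_toLp vol S
  unfold Rep
  rw [hLp]
  refine Filter.EventuallyEq.trans ?_ h3.symm
  exact Filter.Eventually.of_forall hev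

lemma Rep.pulse {f : T2 → ℂ} {F : L2} (h : Rep f F) {ν : ℝ} (hν : 0 < ν) (n : ℕ) :
    Rep ((pulseStep phi ν)^[n] f) ((fun θ => Pool.Agent.Lib.MP_459901_an.heat ν (U θ))^[n] F) := by
  induction n with
  | zero => exact h
  | succ n ih =>
    rw [Function.iterate_succ_apply', Function.iterate_succ_apply']
    exact (ih.comp phi mp_phi).heat hν

lemma datum_rep : Rep datum theta0 := by
  have h1 := Lp.coeFn_add (e (v 0 1)) (e (v 0 (-1)))
  have h2 := coeFn_mFourierLp (d := Fin 2) 2 (v 0 1)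
  have h3 := coeFn_mFourierLp (d := Fin 2) 2 (v 0 (-1))
  unfold Rep
  filter_upwards [h1, h2, h3] with p h1 h2 h3
  have h4 : theta0 p = (e (v 0 1) : T2 → ℂ) p + (e (v 0 (-1)) : T2 → ℂ) p := h1
  rw [h4, h2, h3, mFourier_apply, mFourier_apply]
  simp only [v_zero, v_one]
  rw [fourier_zero, fourier_neg, one_mul, one_mul, Complex.add_conj]
  rfl

lemma rep_toLp {f : T2 → ℂ} (hf : MemLp f 2 vol) : Rep f (hf.toLp f) := (hf.coeFn_toLp).symm

theorem phi_exponentiallyMixing : ExponentiallyMixing phi := by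
  obtain ⟨α, hα, β, hβ, c₁, hc₁, c₂, hc₂, h⟩ := phi_mixing
  refine ⟨α, hα, β, hβ, c₁, hc₁, c₂, hc₂, ?_⟩
  rintro n f g ⟨hf, hf0, hfs⟩ ⟨hg, hg0, hgs⟩
  have rf := rep_toLp hf
  have rg := rep_toLp hg
  have h1 := h n (hf.toLp f) (hg.toLp g)
    ⟨by rw [← rf.coeff]; exact hf0, by simpa only [← rf.coeff] using hfs⟩
    ⟨by rw [← rg.coeff]; exact hg0, by simpa only [← rg.coeff] using hgs⟩
  have h2 : hnorm α (hf.toLp f) = hsNorm α f := by
    unfold hnorm hsNorm
    simp only [← rf.coeff]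
  have h3 : hnorm β (hg.toLp g) = hsNorm β g := by
    unfold hnorm hsNorm
    simp only [← rg.coeff]
  rw [h2, h3] at h1
  refine le_trans (le_of_eq ?_) h1
  have rc := rf.comp phi^[n] (mp_phi.iterate n)
  have h4 : ∫ x, f (phi^[n] x) * conj (g x) ∂vol =
      conj (inner ℂ (koopman phi^[n] (mp_phi.iterate n) (hf.toLp f)) (hg.toLp g) : ℂ) := by
    rw [L2.inner_def, ← integral_conj]
    apply integral_congr_ae
    filter_upwards [rc, rg] with x hx hx'
    have hx2 : f (phi^[n] x) = (koopman phi^[n] (mp_phi.iterate n) (hf.toLp f) : T2 → ℂ) x := hx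
    rw [hx2, hx']
    simp only [RCLike.inner_apply, map_mul, Complex.conj_conj]
    ring
  rw [h4, Complex.norm_conj]

theorem datum_not_dexp {C γ ν₀ : ℝ} (hC : 0 < C) (hγ : 1 < γ) (hν₀ : 0 < ν₀) :
    ∃ ν : ℝ, 0 < ν ∧ ν ≤ ν₀ ∧ ∃ n : ℕ, 1 ≤ n ∧
      Real.exp (-(ν * γ ^ n / C)) * l2norm datum < l2norm ((pulseStep phi ν)^[n] datum) := by
  obtain ⟨ν, hν, hν', n, hn, h⟩ := not_dexp hC hγ hν₀
  refine ⟨ν, hν, hν', n, hn, ?_⟩
  rw [datum_rep.norm, (datum_rep.pulse hν n).norm]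
  exact h

end Pool.Agent.Lib.MP_459901_an
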